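import Pool.Agent.Q97.QQ.Mh

set_option autoImplicit false

open MeasureTheory Filter Topology Complex Set
open scoped ENNReal

namespace Q97.QQ

open Q97.MM Q97.BS

noncomputable section

theorem blk_sum (C : ℝ) (hC : 0 ≤ C) (N : ℕ) :
    Summable (fun j : ℤ => Real.exp (2 - |(j : ℝ)|) * (1 + C * (1 + 3 * |(j : ℝ)|) ^ N)) := by
  obtain ⟨S, -, hS⟩ := sum_decay (δ := 1) one_pos
  have h0 := (hS 0).1
  refine Summable.of_nonneg_of_le (fun j => by positivity) (fun j => ?_)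
    (h0.mul_left (Real.exp 3 * (1 + C) * (3 ^ (N + 2) * (N + 2).factorial)))
  have e0 : |0 - (j : ℝ) * 1| = |(j : ℝ)| := by rw [mul_one, zero_sub, abs_neg]
  rw [e0]
  set x := |(j : ℝ)| with hx
  have hx0 : 0 ≤ x := abs_nonneg _
  have h1 := Real.pow_div_factorial_le_exp ((1 + 3 * x) / 3) (by positivity) (N + 2)
  rw [div_le_iff₀ (by positivity), div_pow, div_le_iff₀ (by positivity)] at h1
  have h2 : 1 + C * (1 + 3 * x) ^ N ≤ (1 + C) * (1 + 3 * x) ^ N := by
    have : 1 ≤ (1 + 3 * x) ^ N := one_le_pow₀ (by linarith)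
    nlinarith
  rw [mul_one_div, le_div_iff₀ (by positivity)]
  have h3 : (1 + x) ^ 2 ≤ (1 + 3 * x) ^ 2 := pow_le_pow_left₀ (by positivity) (by linarith) 2
  have h4 : Real.exp (2 - x) * Real.exp ((1 + 3 * x) / 3) ≤ Real.exp 3 := by
    rw [← Real.exp_add]
    apply Real.exp_le_exp.2
    linarith
  calc Real.exp (2 - x) * (1 + C * (1 + 3 * x) ^ N) * (1 + x) ^ 2
      ≤ Real.exp (2 - x) * ((1 + C) * (1 + 3 * x) ^ N) * (1 + 3 * x) ^ 2 := by gcongr
    _ = Real.exp (2 - x) * (1 + C) * (1 + 3 * x) ^ (N + 2) := by rw [pow_add]; ring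
    _ ≤ Real.exp (2 - x) * (1 + C) *
        (Real.exp ((1 + 3 * x) / 3) * (N + 2).factorial * 3 ^ (N + 2)) := by gcongr
    _ = (Real.exp (2 - x) * Real.exp ((1 + 3 * x) / 3)) * ((1 + C) * (3 ^ (N + 2) *
        (N + 2).factorial)) := by ring
    _ ≤ Real.exp 3 * ((1 + C) * (3 ^ (N + 2) * (N + 2).factorial)) := by gcongr
    _ = _ := by ring

theorem blocks (C : ℝ) (hC : 0 ≤ C) (N : ℕ) : ∃ S : ℝ, 0 < S ∧ ∀ μ : Measure ℝ,
    (∀ x : ℝ, μ (Ioc x (x + 1)) ≤ ENNReal.ofReal (C * (1 + |x|) ^ N)) → ∀ T K : ℝ, 2 ≤ T → 0 ≤ K →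
      (∀ x : ℝ, T / 2 ≤ x → x ≤ 2 * T → μ (Ioc x (x + 1)) ≤ ENNReal.ofReal K) →
      ∫⁻ t, gw T t ∂μ ≤ ENNReal.ofReal (S * (K + 1)) := by
  have hs := blk_sum C hC N
  set S := ∑' j : ℤ, Real.exp (2 - |(j : ℝ)|) * (1 + C * (1 + 3 * |(j : ℝ)|) ^ N) with hS
  have hS0 : 0 ≤ S := tsum_nonneg fun j => by positivity
  refine ⟨S + 1, by positivity, fun μ hμ T K hT hK hK' => ?_⟩
  have e1 : ∫⁻ t, gw T t ∂μ = ∑' j : ℤ, ∫⁻ t in Ioc (T + j) (T + j + 1), gw T t ∂μ := by
    rw [← lintegral_iUnion (fun j => measurableSet_Ioc) (pairwise_disjoint_Ioc_add_intCast T),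
      iUnion_Ioc_add_intCast, setLIntegral_univ]
  rw [e1]
  have hterm : ∀ j : ℤ, ∫⁻ t in Ioc (T + j) (T + j + 1), gw T t ∂μ ≤
      ENNReal.ofReal ((Real.exp (2 - |(j : ℝ)|) * (1 + C * (1 + 3 * |(j : ℝ)|) ^ N)) * (K + 1)) := by
    intro j
    have h1 : ∫⁻ t in Ioc (T + j) (T + j + 1), gw T t ∂μ ≤
        ENNReal.ofReal (Real.exp (2 - |(j : ℝ)|)) * μ (Ioc (T + j) (T + j + 1)) := by
      rw [← setLIntegral_const]
      refine setLIntegral_mono' measurableSet_Ioc fun t ht => ?_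
      rw [gw, wt_one]
      apply ENNReal.ofReal_le_ofReal
      apply Real.exp_le_exp.2
      have h2 : |(j : ℝ)| ≤ |T - t| + 1 := by
        have h3 : |(j : ℝ)| ≤ |t - T| + |(j : ℝ) - (t - T)| := by
          have := abs_add_le (t - T) ((j : ℝ) - (t - T))
          rwa [add_sub_cancel] at this
        have h4 : |(j : ℝ) - (t - T)| ≤ 1 := by
          rw [abs_le]
          constructor <;> linarith [ht.1, ht.2]
        rw [abs_sub_comm T t]
        linarith
      have h5 : |T - t| ≤ (T - t) ^ 2 + 1 := by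
        rw [← sq_abs]
        nlinarith [sq_nonneg (|T - t| - 1), abs_nonneg (T - t)]
      linarith
    refine h1.trans ?_
    have h2 : μ (Ioc (T + j) (T + j + 1)) ≤
        ENNReal.ofReal ((1 + C * (1 + 3 * |(j : ℝ)|) ^ N) * (K + 1)) := by
      by_cases hj : |(j : ℝ)| ≤ T / 2
      · obtain ⟨j1, j2⟩ := abs_le.mp hj
        refine (hK' (T + j) (by linarith) (by linarith)).trans (ENNReal.ofReal_le_ofReal ?_)
        have : 0 ≤ C * (1 + 3 * |(j : ℝ)|) ^ N := by positivity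
        nlinarith
      · push Not at hj
        refine (hμ (T + j)).trans (ENNReal.ofReal_le_ofReal ?_)
        have h3 : 1 + |T + j| ≤ 1 + 3 * |(j : ℝ)| := by
          have := abs_add_le T (j : ℝ)
          rw [abs_of_nonneg (show 0 ≤ T by linarith)] at this
          linarith
        have h4 : C * (1 + |T + j|) ^ N ≤ C * (1 + 3 * |(j : ℝ)|) ^ N := by gcongr
        have : 0 ≤ C * (1 + 3 * |(j : ℝ)|) ^ N := by positivity
        nlinarith
    calc ENNReal.ofReal (Real.exp (2 - |(j : ℝ)|)) * μ (Ioc (T + j) (T + j + 1))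
        ≤ ENNReal.ofReal (Real.exp (2 - |(j : ℝ)|)) *
          ENNReal.ofReal ((1 + C * (1 + 3 * |(j : ℝ)|) ^ N) * (K + 1)) := by gcongr
      _ = _ := by
          rw [← ENNReal.ofReal_mul (Real.exp_pos _).le]
          congr 1
          ring
  refine (ENNReal.tsum_le_tsum hterm).trans ?_
  rw [← ENNReal.ofReal_tsum_of_nonneg (fun j => by positivity) (hs.mul_right (K + 1)),
    tsum_mul_right]
  apply ENNReal.ofReal_le_ofReal
  have : 0 ≤ K + 1 := by linarith
  rw [← hS]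
  nlinarith

theorem zf_unit (k : ℕ) {x t : ℝ} (ht : t ∈ Ioc x (x + 1)) :
    zf k t ≤ 180 ^ (2 * k) * 2 ^ (4 * k) * (1 + |x|) ^ (4 * k) := by
  refine (zf_bd k t).trans ?_
  have h1 : 1 + |t| ≤ 2 * (1 + |x|) := by
    have h2 : |t| ≤ |x| + 1 := by
      have h3 := abs_add_le x (t - x)
      rw [add_sub_cancel] at h3
      have h4 : |t - x| ≤ 1 := by
        rw [abs_le]
        constructor <;> linarith [ht.1, ht.2]
      linarith
    linarith [abs_nonneg x]
  calc 180 ^ (2 * k) * (1 + |t|) ^ (4 * k) ≤ 180 ^ (2 * k) * (2 * (1 + |x|)) ^ (4 * k) := by gcongr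
    _ = _ := by rw [mul_pow]; ring

theorem m0_poly (k : ℕ) (x : ℝ) : m0 k (Ioc x (x + 1)) ≤
    ENNReal.ofReal ((3 * Real.pi * (180 ^ (2 * k) * 2 ^ (4 * k))) * (1 + |x|) ^ (4 * k)) := by
  unfold m0
  rw [withDensity_apply _ measurableSet_Ioc]
  have h1 : ∫⁻ t in Ioc x (x + 1), ENNReal.ofReal (zf k t) ≤
      ∫⁻ _ in Ioc x (x + 1), ENNReal.ofReal (180 ^ (2 * k) * 2 ^ (4 * k) * (1 + |x|) ^ (4 * k)) :=
    setLIntegral_mono' measurableSet_Ioc fun t ht => ENNReal.ofReal_le_ofReal (zf_unit k ht)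
  refine h1.trans ?_
  rw [setLIntegral_const, Real.volume_Ioc, add_sub_cancel_left, ENNReal.ofReal_one, mul_one]
  apply ENNReal.ofReal_le_ofReal
  have hπ := Real.pi_gt_three
  have : 0 ≤ 180 ^ (2 * k) * 2 ^ (4 * k) * (1 + |x|) ^ (4 * k) := by positivity
  calc 180 ^ (2 * k) * 2 ^ (4 * k) * (1 + |x|) ^ (4 * k)
      = 1 * (180 ^ (2 * k) * 2 ^ (4 * k) * (1 + |x|) ^ (4 * k)) := (one_mul _).symm
    _ ≤ 3 * Real.pi * (180 ^ (2 * k) * 2 ^ (4 * k) * (1 + |x|) ^ (4 * k)) := by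
        gcongr
        linarith
    _ = _ := by ring

theorem mh_poly (k : ℕ) {h : ℝ} (hh : 0 < h) (h1 : h ≤ 1) (x : ℝ) : mh k h (Ioc x (x + 1)) ≤
    ENNReal.ofReal ((3 * Real.pi * (180 ^ (2 * k) * 2 ^ (4 * k))) * (1 + |x|) ^ (4 * k)) := by
  rw [mh_set k h measurableSet_Ioc]
  obtain ⟨s1, s2⟩ := cau_sum hh h1 (-x)
  set M : ℝ := 180 ^ (2 * k) * 2 ^ (4 * k) * (1 + |x|) ^ (4 * k) with hM
  have hM0 : 0 ≤ M := by positivity
  have hterm : ∀ n : ℤ, ENNReal.ofReal (h * zf k (n * h)) *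
      (Ioc x (x + 1)).indicator 1 ((n : ℝ) * h) ≤ ENNReal.ofReal (2 * M * (h * cau (-x + n * h))) := by
    intro n
    by_cases hn : (n : ℝ) * h ∈ Ioc x (x + 1)
    · rw [indicator_of_mem hn, Pi.one_apply, mul_one]
      apply ENNReal.ofReal_le_ofReal
      have h2 := zf_unit k hn
      rw [← hM] at h2
      have h3 : 1 ≤ 2 * cau (-x + n * h) := by
        unfold cau
        rw [mul_one_div, le_div_iff₀ (by positivity)]
        have h4 : 0 ≤ -x + n * h := by linarith [hn.1]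
        have h5 : -x + n * h ≤ 1 := by linarith [hn.2]
        nlinarith
      calc h * zf k (n * h) ≤ h * M := by gcongr
        _ = h * M * 1 := (mul_one _).symm
        _ ≤ h * M * (2 * cau (-x + n * h)) := by gcongr
        _ = _ := by ring
    · rw [indicator_of_notMem hn, mul_zero]
      exact zero_le
  refine (ENNReal.tsum_le_tsum hterm).trans ?_
  rw [← ENNReal.ofReal_tsum_of_nonneg (fun n => by
    have := (cau_pos (-x + n * h)).le
    positivity) ((s1.mul_left h).mul_left (2 * M)), tsum_mul_left, tsum_mul_left]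
  apply ENNReal.ofReal_le_ofReal
  calc 2 * M * (h * ∑' n : ℤ, cau (-x + n * h)) ≤ 2 * M * (3 / 2 * Real.pi) := by gcongr
    _ = _ := by rw [hM]; ring

/-- The asymptotic formula for the integral is equivalent to the one for Riemann sums. -/
theorem equiv {k : ℕ} (hk : 1 ≤ k) {δ : ℝ} (hδ : 0 < δ) (hδk : δ < 1 / k) {a : ℝ} (ha : 0 ≤ a)
    (J : ℝ → ℝ) (hJ : ∃ C : ℝ, ∀ᶠ T : ℝ in atTop, |J (T + 1) - J T| ≤ C * T ^ a) :
    (∃ C : ℝ, ∀ᶠ T : ℝ in atTop, |FF0 k T - J T| ≤ C * T ^ a) ↔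
    (∃ C : ℝ, ∀ᶠ T : ℝ in atTop, ∀ h : ℝ, 0 < h → h ≤ 2 * Real.pi * δ / Real.log T →
      |DD k T h - J T| ≤ C * T ^ a) := by
  obtain ⟨CJ, hJ⟩ := hJ
  obtain ⟨S, hS, hblk⟩ := blocks (3 * Real.pi * (180 ^ (2 * k) * 2 ^ (4 * k))) (by positivity) (4 * k)
  obtain ⟨Ce, hCe, hedge⟩ := edge hk hδ hδk
  have hex := exact_m hk hδ hδk
  have hπ := Real.pi_pos
  have hlog : Tendsto (fun T : ℝ => 2 * Real.pi * δ / Real.log (2 * T + 1)) atTop (𝓝 0) := by
    apply Tendsto.const_div_atTop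
    apply Real.tendsto_log_atTop.comp
    exact tendsto_atTop_add_const_right _ _ (tendsto_id.const_mul_atTop two_pos)
  -- a bound for the increments
  have hinc : ∀ (A : ℝ → ℝ) (C X : ℝ), 1 ≤ X → 0 ≤ C → ∀ T : ℝ, 2 * X ≤ T →
      (∀ x : ℝ, X ≤ x → x ≤ 2 * T + 1 → |A x - J x| ≤ C * x ^ a) →
      (∀ x : ℝ, X ≤ x → |J (x + 1) - J x| ≤ |CJ| * x ^ a) →
      ∀ x : ℝ, T / 2 ≤ x → x ≤ 2 * T → A (x + 1) - A x ≤ (2 * C + |CJ|) * (3 * T) ^ a := by
    intro A C X hX hC T hT h1 h2 x hx1 hx2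
    have a1 := h1 x (by linarith) (by linarith)
    have a2 := h1 (x + 1) (by linarith) (by linarith)
    have a3 := h2 x (by linarith)
    have hx0 : 0 ≤ x := by linarith
    have b1 : x ^ a ≤ (3 * T) ^ a := Real.rpow_le_rpow hx0 (by linarith) ha
    have b2 : (x + 1) ^ a ≤ (3 * T) ^ a := Real.rpow_le_rpow (by linarith) (by linarith) ha
    have c1 := (abs_le.mp a1).1
    have c2 := (abs_le.mp a2).2
    have c3 := (abs_le.mp a3).2
    have d1 : C * x ^ a ≤ C * (3 * T) ^ a := by gcongr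
    have d2 : C * (x + 1) ^ a ≤ C * (3 * T) ^ a := by gcongr
    have d3 : |CJ| * x ^ a ≤ |CJ| * (3 * T) ^ a := by gcongr
    linarith
  have h3T : ∀ T : ℝ, 0 ≤ T → (3 * T) ^ a = 3 ^ a * T ^ a := fun T hT =>
    Real.mul_rpow (by norm_num) hT
  constructor
  · rintro ⟨C, hC⟩
    obtain ⟨X₁, hX₁⟩ := eventually_atTop.mp hC
    obtain ⟨X₂, hX₂⟩ := eventually_atTop.mp hJ
    set X := max (max X₁ X₂) 1 with hX
    have hX1 : 1 ≤ X := le_max_right _ _
    refine ⟨2 * (S * ((2 * |C| + |CJ|) * 3 ^ a + 1)) + Ce + |C|, ?_⟩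
    filter_upwards [hedge, hex, eventually_ge_atTop (max (2 * X) 3)] with T e1 e2 hT h hh hhL
    have hTX : 2 * X ≤ T := (le_max_left _ _).trans hT
    have hT3 : 3 ≤ T := (le_max_right _ _).trans hT
    have hTa : 1 ≤ T ^ a := Real.one_le_rpow (by linarith) ha
    have hE := EE_nonneg k T
    set K : ℝ := (2 * |C| + |CJ|) * (3 * T) ^ a with hK
    have hK0 : 0 ≤ K := by positivity
    have i1 := hinc (FF0 k) |C| X hX1 (abs_nonneg _) T hTX
      (fun x hx _ => (hX₁ x ((le_max_left _ _).trans ((le_max_left _ _).trans hx))).trans (by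
        have : 0 ≤ x ^ a := Real.rpow_nonneg (by linarith) _
        nlinarith [le_abs_self C]))
      (fun x hx => (hX₂ x ((le_max_right _ _).trans ((le_max_left _ _).trans hx))).trans (by
        have : 0 ≤ x ^ a := Real.rpow_nonneg (by linarith) _
        nlinarith [le_abs_self CJ]))
    have b1 := hblk (m0 k) (m0_poly k) T K (by linarith) hK0 (fun x hx1 hx2 => by
      rw [m0_Ioc k (by linarith)]
      exact ENNReal.ofReal_le_ofReal (i1 x hx1 hx2))
    rw [m0_gw k e2.1, ENNReal.ofReal_le_ofReal_iff (by positivity)] at b1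
    have b2 := e1 h hh hhL
    have b3 : |FF0 k T - J T| ≤ |C| * T ^ a := (hX₁ T (by
      have := le_max_left X₁ X₂
      have := le_max_left (max X₁ X₂) 1
      linarith)).trans (by nlinarith [le_abs_self C])
    have b4 : |DD k T h - J T| ≤ |DD k T h - FF0 k T| + |FF0 k T - J T| := by
      have := abs_add_le (DD k T h - FF0 k T) (FF0 k T - J T)
      rwa [sub_add_sub_cancel] at this
    have b5 : S * (K + 1) ≤ S * ((2 * |C| + |CJ|) * 3 ^ a + 1) * T ^ a := by
      rw [hK, h3T T (by linarith)]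
      nlinarith
    nlinarith
  · rintro ⟨C, hC⟩
    obtain ⟨X₁, hX₁⟩ := eventually_atTop.mp hC
    obtain ⟨X₂, hX₂⟩ := eventually_atTop.mp hJ
    set X := max (max X₁ X₂) 2 with hX
    have hX2 : 2 ≤ X := le_max_right _ _
    refine ⟨2 * (S * ((2 * |C| + |CJ|) * 3 ^ a + 1) + 1) + Ce + |C|, ?_⟩
    filter_upwards [hedge, hex, eventually_ge_atTop (max (2 * X) 3),
      hlog.eventually (gt_mem_nhds one_pos)] with T e1 e2 hT hlT
    have hTX : 2 * X ≤ T := (le_max_left _ _).trans hT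
    have hT3 : 3 ≤ T := (le_max_right _ _).trans hT
    have hTa : 1 ≤ T ^ a := Real.one_le_rpow (by linarith) ha
    have hE := EE_nonneg k T
    set h : ℝ := 2 * Real.pi * δ / Real.log (2 * T + 1) with hh
    have hlp : 0 < Real.log (2 * T + 1) := Real.log_pos (by linarith)
    have hh0 : 0 < h := by positivity
    have hhx : ∀ x : ℝ, X ≤ x → x ≤ 2 * T + 1 → h ≤ 2 * Real.pi * δ / Real.log x := by
      intro x hx1 hx2
      apply div_le_div_of_nonneg_left (by positivity) (Real.log_pos (by linarith))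
      exact Real.log_le_log (by linarith) hx2
    have hhT : h ≤ 2 * Real.pi * δ / Real.log T := hhx T (by linarith) (by linarith)
    set K : ℝ := (2 * |C| + |CJ|) * (3 * T) ^ a with hK
    have hK0 : 0 ≤ K := by positivity
    have i1 := hinc (fun x => DD k x h) |C| X (by linarith) (abs_nonneg _) T hTX
      (fun x hx hx2 => (hX₁ x ((le_max_left _ _).trans ((le_max_left _ _).trans hx)) h hh0
        (hhx x hx hx2)).trans (by
          have : 0 ≤ x ^ a := Real.rpow_nonneg (by linarith) _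
          nlinarith [le_abs_self C]))
      (fun x hx => (hX₂ x ((le_max_right _ _).trans ((le_max_left _ _).trans hx))).trans (by
        have : 0 ≤ x ^ a := Real.rpow_nonneg (by linarith) _
        nlinarith [le_abs_self CJ]))
    have b1 := hblk (mh k h) (mh_poly k hh0 hlT.le) T K (by linarith) hK0 (fun x hx1 hx2 => by
      rw [(mh_Ioc k (a := x) (b := x + 1) (by linarith) (by linarith) hh0).2]
      exact ENNReal.ofReal_le_ofReal (i1 x hx1 hx2))
    have b1' : EE k T ≤ S * (K + 1) + 1 := by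
      have c1 := (e2.2 h hh0 hhT).2
      rw [m0_gw k e2.1] at c1
      have c2 : ENNReal.ofReal (EE k T) ≤ ENNReal.ofReal (S * (K + 1) + 1) := by
        rw [ENNReal.ofReal_add (by positivity) zero_le_one]
        refine c1.trans ?_
        gcongr
        rw [div_le_one (by positivity)]
        nlinarith
      exact (ENNReal.ofReal_le_ofReal_iff (by positivity)).mp c2
    have b2 := e1 h hh0 hhT
    have b3 : |DD k T h - J T| ≤ |C| * T ^ a := (hX₁ T (by
      have := le_max_left X₁ X₂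
      have := le_max_left (max X₁ X₂) 2
      linarith) h hh0 hhT).trans (by nlinarith [le_abs_self C])
    have b4 : |FF0 k T - J T| ≤ |DD k T h - FF0 k T| + |DD k T h - J T| := by
      have := abs_add_le (-(DD k T h - FF0 k T)) (DD k T h - J T)
      rw [abs_neg] at this
      have e : -(DD k T h - FF0 k T) + (DD k T h - J T) = FF0 k T - J T := by ring
      rwa [e] at this
    have b5 : S * (K + 1) ≤ S * ((2 * |C| + |CJ|) * 3 ^ a + 1) * T ^ a := by
      rw [hK, h3T T (by linarith)]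
      nlinarith
    nlinarith

end

end Q97.QQ
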