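import Mathlib

set_option autoImplicit false

open MeasureTheory Filter Topology Set

namespace Q97.QQ

noncomputable section

theorem poly_exp (P : Polynomial ℝ) {c : ℝ} (hc : 0 < c) :
    ∃ A : ℝ, 0 < A ∧ ∀ y : ℝ, |P.eval y| ≤ A * Real.exp (c * |y|) := by
  refine ⟨∑ i ∈ Finset.range (P.natDegree + 1), |P.coeff i| * (i.factorial / c ^ i) + 1, ?_,
    fun y => ?_⟩
  · have : 0 ≤ ∑ i ∈ Finset.range (P.natDegree + 1), |P.coeff i| * ((i.factorial : ℝ) / c ^ i) :=
      Finset.sum_nonneg fun i _ => by positivity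
    linarith
  · rw [Polynomial.eval_eq_sum_range]
    refine (Finset.abs_sum_le_sum_abs _ _).trans ?_
    have h1 : ∑ i ∈ Finset.range (P.natDegree + 1), |P.coeff i * y ^ i| ≤
        ∑ i ∈ Finset.range (P.natDegree + 1),
          (|P.coeff i| * ((i.factorial : ℝ) / c ^ i)) * Real.exp (c * |y|) := by
      refine Finset.sum_le_sum fun i _ => ?_
      rw [abs_mul, abs_pow]
      have h2 := Real.pow_div_factorial_le_exp (c * |y|) (by positivity) i
      rw [div_le_iff₀ (by positivity), mul_pow] at h2
      have h3 : |y| ^ i ≤ (i.factorial : ℝ) / c ^ i * Real.exp (c * |y|) := by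
        rw [div_mul_eq_mul_div, le_div_iff₀ (by positivity)]
        linarith
      calc |P.coeff i| * |y| ^ i ≤ |P.coeff i| * ((i.factorial : ℝ) / c ^ i * Real.exp (c * |y|)) := by
            gcongr
        _ = _ := by ring
    rw [← Finset.sum_mul] at h1
    have h4 := Real.exp_pos (c * |y|)
    linarith

/-- a main term of the type of the recipe -/
def JP (P : Polynomial ℝ) (T : ℝ) : ℝ := ∫ t in (0 : ℝ)..T, P.eval (Real.log (t / (2 * Real.pi)))

theorem JP_bd (P : Polynomial ℝ) {c : ℝ} (hc : 0 < c) : ∃ A : ℝ, 0 < A ∧ ∀ t : ℝ, 0 < t →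
    |P.eval (Real.log (t / (2 * Real.pi)))| ≤ A * (t ^ c + t ^ (-c)) := by
  obtain ⟨A, hA, h⟩ := poly_exp P hc
  have hπ := Real.pi_gt_three
  refine ⟨A * Real.exp (c * |Real.log (2 * Real.pi)|), by positivity, fun t ht => ?_⟩
  refine (h _).trans ?_
  rw [Real.log_div ht.ne' (by positivity)]
  have h1 : Real.exp (c * |Real.log t - Real.log (2 * Real.pi)|) ≤
      Real.exp (c * |Real.log (2 * Real.pi)|) * Real.exp (c * |Real.log t|) := by
    rw [← Real.exp_add]
    apply Real.exp_le_exp.2
    have := abs_sub (Real.log t) (Real.log (2 * Real.pi))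
    nlinarith
  have h2 : Real.exp (c * |Real.log t|) ≤ t ^ c + t ^ (-c) := by
    have e : ∀ d : ℝ, t ^ d = Real.exp (d * Real.log t) := by
      intro d
      rw [mul_comm, Real.exp_mul, Real.exp_log ht]
    rw [e, e]
    rcases le_total 0 (Real.log t) with h3 | h3
    · rw [abs_of_nonneg h3]
      linarith [Real.exp_pos (-c * Real.log t)]
    · rw [abs_of_nonpos h3]
      have : c * -Real.log t = -c * Real.log t := by ring
      rw [this]
      linarith [Real.exp_pos (c * Real.log t)]
  calc A * Real.exp (c * |Real.log t - Real.log (2 * Real.pi)|)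
      ≤ A * (Real.exp (c * |Real.log (2 * Real.pi)|) * (t ^ c + t ^ (-c))) := by
        gcongr
        exact h1.trans (by gcongr)
    _ = _ := by ring

theorem JP_ii (P : Polynomial ℝ) {x : ℝ} (hx : 0 ≤ x) :
    IntervalIntegrable (fun t => P.eval (Real.log (t / (2 * Real.pi)))) volume 0 x := by
  obtain ⟨A, hA, h⟩ := JP_bd P (c := 1 / 2) (by norm_num)
  have h1 : IntervalIntegrable (fun t : ℝ => A * (t ^ (1 / 2 : ℝ) + t ^ (-(1 / 2) : ℝ))) volume 0 x :=
    ((intervalIntegral.intervalIntegrable_rpow' (by norm_num)).add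
      (intervalIntegral.intervalIntegrable_rpow' (by norm_num))).const_mul A
  refine h1.mono_fun ?_ ?_
  · refine Measurable.aestronglyMeasurable ?_
    exact P.continuous.measurable.comp (Real.measurable_log.comp (measurable_id.div_const _))
  · rw [Filter.EventuallyLE, ae_restrict_iff' measurableSet_uIoc]
    refine Eventually.of_forall fun t ht => ?_
    rw [uIoc_of_le hx] at ht
    have h2 := h t ht.1
    rw [Real.norm_eq_abs, Real.norm_eq_abs]
    exact h2.trans (le_abs_self _)

theorem JP_inc (P : Polynomial ℝ) {a : ℝ} (ha : 0 < a) :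
    ∃ C : ℝ, ∀ᶠ T : ℝ in atTop, |JP P (T + 1) - JP P T| ≤ C * T ^ a := by
  obtain ⟨A, hA, h⟩ := JP_bd P ha
  refine ⟨A * (2 ^ a + 1), ?_⟩
  filter_upwards [eventually_ge_atTop 1] with T hT
  have h0 := JP_ii P (x := T) (by linarith)
  have h1 := JP_ii P (x := T + 1) (by linarith)
  have e : JP P (T + 1) - JP P T =
      ∫ t in T..(T + 1), P.eval (Real.log (t / (2 * Real.pi))) := by
    unfold JP
    exact intervalIntegral.integral_interval_sub_left h1 h0
  rw [e, ← Real.norm_eq_abs]
  have h2 := intervalIntegral.norm_integral_le_of_norm_le_const (a := T) (b := T + 1)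
    (f := fun t => P.eval (Real.log (t / (2 * Real.pi)))) (C := A * (2 ^ a + 1) * T ^ a)
    (fun t ht => by
      rw [uIoc_of_le (by linarith)] at ht
      have ht0 : 0 < t := by linarith [ht.1]
      rw [Real.norm_eq_abs]
      refine (h t ht0).trans ?_
      have h3 : t ^ a ≤ 2 ^ a * T ^ a := by
        rw [← Real.mul_rpow (by norm_num) (by linarith)]
        exact Real.rpow_le_rpow ht0.le (by linarith [ht.2]) ha.le
      have h4 : t ^ (-a) ≤ 1 := by
        apply Real.rpow_le_one_of_one_le_of_nonpos (by linarith [ht.1]) (by linarith)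
      have h5 : 1 ≤ T ^ a := Real.one_le_rpow hT ha.le
      calc A * (t ^ a + t ^ (-a)) ≤ A * (2 ^ a * T ^ a + T ^ a) := by
            gcongr
            linarith
        _ = _ := by ring)
  rw [add_sub_cancel_left, abs_one, mul_one] at h2
  exact h2

end

end Q97.QQ
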