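import Pool.Agent.Q97.QQ.Cmq
import Pool.Agent.Q97.BS.Qdr

set_option autoImplicit false

open MeasureTheory Filter Topology Complex Set FourierTransform
open scoped ComplexConjugate

namespace Q97.QQ

open Q97.MM Q97.BS

noncomputable section

def cau (y : ℝ) : ℝ := 1 / (1 + y ^ 2)

theorem cau_pos (y : ℝ) : 0 < cau y := by unfold cau; positivity

theorem cau_cont : Continuous cau := by
  unfold cau
  exact continuous_const.div (by fun_prop) fun y => by positivity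

theorem cau_int : Integrable cau ∧ ∫ y, cau y = Real.pi := by
  have e : cau = fun y : ℝ => (1 + y ^ 2)⁻¹ := by
    funext y
    rw [cau, one_div]
  rw [e]
  exact ⟨integrable_inv_one_add_sq, integral_univ_inv_one_add_sq⟩

theorem cau_tv (a b : ℝ) (hab : a ≤ b) : |cau b - cau a| ≤ ∫ y in a..b, cau y := by
  have hd : ∀ y ∈ uIcc a b, HasDerivAt cau (-(2 * y) / (1 + y ^ 2) ^ 2) y := by
    intro y _
    have h1 : HasDerivAt (fun y : ℝ => 1 + y ^ 2) (2 * y) y := by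
      have := (hasDerivAt_pow 2 y).const_add 1
      simpa using this
    have h2 := h1.fun_inv (by positivity)
    have e : cau = fun y : ℝ => (1 + y ^ 2)⁻¹ := by
      funext y
      rw [cau, one_div]
    rw [e]
    exact h2
  have hc : Continuous (fun y : ℝ => -(2 * y) / (1 + y ^ 2) ^ 2) :=
    Continuous.div (by fun_prop) (by fun_prop) fun y => by positivity
  have h1 := intervalIntegral.integral_eq_sub_of_hasDerivAt hd (hc.intervalIntegrable _ _)
  rw [← h1, ← Real.norm_eq_abs]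
  refine (intervalIntegral.norm_integral_le_integral_norm hab).trans ?_
  refine intervalIntegral.integral_mono_on hab (hc.norm.intervalIntegrable _ _)
    (cau_cont.intervalIntegrable _ _) fun y _ => ?_
  rw [Real.norm_eq_abs, abs_div, abs_of_pos (by positivity : (0 : ℝ) < (1 + y ^ 2) ^ 2), cau,
    div_le_div_iff₀ (by positivity) (by positivity)]
  have h2 : |-(2 * y)| ≤ 1 + y ^ 2 := by
    rw [abs_neg, abs_mul, abs_of_pos (by norm_num : (0 : ℝ) < 2), ← sq_abs y]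
    nlinarith [sq_nonneg (|y| - 1)]
  calc |-(2 * y)| * (1 + y ^ 2) ≤ (1 + y ^ 2) * (1 + y ^ 2) := by gcongr
    _ = _ := by ring

theorem cau_sum {h : ℝ} (hh : 0 < h) (h1 : h ≤ 1) (x : ℝ) :
    Summable (fun n : ℤ => cau (x + n * h)) ∧ h * ∑' n : ℤ, cau (x + n * h) ≤ 3 / 2 * Real.pi := by
  obtain ⟨q1, q2⟩ := quad cau_cont cau_int.1 cau_int.1 (fun x => (cau_pos x).le) cau_tv hh x
  refine ⟨q1, ?_⟩
  rw [cau_int.2] at q2
  have := (abs_le.mp q2).2
  nlinarith [Real.pi_pos]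

theorem tR_cau (D : ℕ) {T : ℝ} (hT : 0 < T) (y : ℝ) : tR D T y ≤ 1 / T ^ D * cau (y - T) := by
  unfold tR cau
  rw [← one_div_mul_one_div]
  have : 1 / (1 + |y - T|) ^ 2 ≤ 1 / (1 + (y - T) ^ 2) := by
    apply one_div_le_one_div_of_le (by positivity)
    have : (1 + |y - T|) ^ 2 = 1 + (y - T) ^ 2 + 2 * |y - T| := by
      rw [← sq_abs (y - T)]; ring
    rw [this]
    linarith [abs_nonneg (y - T)]
  gcongr

theorem tR_nonneg (D : ℕ) {T : ℝ} (hT : 0 < T) (y : ℝ) : 0 ≤ tR D T y := by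
  unfold tR; positivity

theorem tR_sum' (D : ℕ) {T h : ℝ} (hT : 0 < T) (hh : 0 < h) (h1 : h ≤ 1) (θ : ℝ) :
    Summable (fun n : ℤ => tR D T (θ + n * h)) ∧
      h * ∑' n : ℤ, tR D T (θ + n * h) ≤ 3 / 2 * Real.pi / T ^ D := by
  obtain ⟨s1, s2⟩ := cau_sum hh h1 (θ - T)
  have hle : ∀ n : ℤ, tR D T (θ + n * h) ≤ 1 / T ^ D * cau (θ - T + n * h) := by
    intro n
    refine (tR_cau D hT _).trans (le_of_eq ?_)
    congr 2
    ring
  have s3 : Summable (fun n : ℤ => tR D T (θ + n * h)) :=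
    Summable.of_nonneg_of_le (fun n => tR_nonneg D hT _) hle (s1.mul_left _)
  refine ⟨s3, ?_⟩
  have s4 := s3.tsum_le_tsum hle (s1.mul_left _)
  rw [tsum_mul_left] at s4
  calc h * ∑' n : ℤ, tR D T (θ + n * h) ≤ h * (1 / T ^ D * ∑' n : ℤ, cau (θ - T + n * h)) := by
        gcongr
    _ = 1 / T ^ D * (h * ∑' n : ℤ, cau (θ - T + n * h)) := by ring
    _ ≤ 1 / T ^ D * (3 / 2 * Real.pi) := by gcongr
    _ = _ := by ring

theorem psi_summable {k : ℕ} (hk : 1 ≤ k) {T U : ℝ} (hA : Adm T U) {h : ℝ} (hh : 0 < h) (h1 : h ≤ 1)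
    (θ : ℝ) : Summable (fun n : ℤ => psi k T U (θ + n * h)) ∧ Integrable (psi k T U) := by
  obtain ⟨M, δ', hM, hδ', hbd⟩ := Ps_strip hk 1 hA
  have hb : ∀ y : ℝ, ‖psi k T U y‖ ≤ M * (1 / δ' + 1) * cau y := by
    intro y
    have h2 : ‖psi k T U y‖ ≤ M * Real.exp (-δ' * y ^ 2) :=
      hbd (1 / 2) y (by norm_num) (by norm_num)
    refine h2.trans ?_
    have h3 : Real.exp (-δ' * y ^ 2) ≤ (1 / δ' + 1) * cau y := by
      unfold cau
      rw [mul_one_div, le_div_iff₀ (by positivity)]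
      have h4 := Real.add_one_le_exp (δ' * y ^ 2)
      have e : Real.exp (-δ' * y ^ 2) = (Real.exp (δ' * y ^ 2))⁻¹ := by
        rw [← Real.exp_neg]; congr 1; ring
      rw [e, inv_mul_le_iff₀ (Real.exp_pos _)]
      have h5 : 1 + y ^ 2 ≤ (1 / δ' + 1) * (δ' * y ^ 2 + 1) := by
        have : (1 / δ' + 1) * (δ' * y ^ 2 + 1) = y ^ 2 + 1 / δ' + δ' * y ^ 2 + 1 := by
          field_simp
          ring
        rw [this]
        have : 0 ≤ 1 / δ' := by positivity
        have : 0 ≤ δ' * y ^ 2 := by positivity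
        linarith
      calc 1 + y ^ 2 ≤ (1 / δ' + 1) * (δ' * y ^ 2 + 1) := h5
        _ ≤ (1 / δ' + 1) * Real.exp (δ' * y ^ 2) := by gcongr
        _ = _ := by ring
    calc M * Real.exp (-δ' * y ^ 2) ≤ M * ((1 / δ' + 1) * cau y) := by gcongr
      _ = _ := by ring
  constructor
  · exact Summable.of_norm_bounded ((cau_sum hh h1 θ).1.mul_left _) fun n => hb _
  · exact (cau_int.1.const_mul _).mono' (psi_cont k T U).aestronglyMeasurable
      (Eventually.of_forall hb)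

/-- the density -/
def fw (k : ℕ) (T U y : ℝ) : ℝ := ‖riemannZeta (Q97.BS.pt y)‖ ^ (2 * k) * wt T U y

theorem fw_nonneg (k : ℕ) (T U y : ℝ) : 0 ≤ fw k T U y :=
  mul_nonneg (by positivity) (wt_pos _ _ _).le

theorem fw_cont (k : ℕ) (T U : ℝ) : Continuous (fw k T U) := by
  have h1 : Continuous (fun y : ℝ => riemannZeta (Q97.BS.pt y)) := zeta_line_cont (by norm_num)
  have h2 : Continuous (wt T U) := by unfold wt; fun_prop
  exact (h1.norm.pow _).mul h2

/-- Exact quadrature for the moments of zeta. -/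
theorem exact {k : ℕ} (hk : 1 ≤ k) {δ : ℝ} (hδ : 0 < δ) (hδk : δ < 1 / k) (B : ℕ) :
    ∀ᶠ T : ℝ in atTop, ∀ U : ℝ, Adm T U → ∀ h : ℝ, 0 < h → h ≤ 2 * Real.pi * δ / Real.log T →
      ∀ θ : ℝ, Integrable (fw k T U) ∧ Summable (fun n : ℤ => fw k T U (θ + n * h)) ∧
        |h * ∑' n : ℤ, fw k T U (θ + n * h) - ∫ y, fw k T U y| ≤ 1 / T ^ B := by
  obtain ⟨K, hK, hq⟩ := psi_quad hk hδ hδk (B + 1)
  have hsm : Tendsto (fun T : ℝ => (K + 3 * Real.pi) / T ^ 1) atTop (𝓝 0) :=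
    (tendsto_pow_atTop (n := 1) (α := ℝ) (by norm_num)).const_div_atTop _
  have hlog : Tendsto (fun T : ℝ => 2 * Real.pi * δ / Real.log T) atTop (𝓝 0) :=
    Real.tendsto_log_atTop.const_div_atTop _
  filter_upwards [psi_cmp hk (B + 1), eventually_ge_atTop 3, hsm.eventually (gt_mem_nhds one_pos),
    hlog.eventually (gt_mem_nhds one_pos)] with T h1 hT h2 h3 U hA h hh hhL θ
  have hT0 : 0 < T := by linarith
  have hh1 : h ≤ 1 := hhL.trans h3.le
  obtain ⟨p1, p2⟩ := psi_summable hk hA hh hh1 θ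
  obtain ⟨t1, t2⟩ := tR_sum' (B + 1) hT0 hh hh1 θ
  obtain ⟨t3, t4⟩ := tR_int (B + 1) hT0
  have hd : ∀ y, ‖psi k T U y - ((fw k T U y : ℝ) : ℂ)‖ ≤ tR (B + 1) T y := h1 U hA
  have d1 : Summable (fun n : ℤ => psi k T U (θ + n * h) - ((fw k T U (θ + n * h) : ℝ) : ℂ)) :=
    Summable.of_norm_bounded t1 fun n => hd _
  have f1c : Summable (fun n : ℤ => ((fw k T U (θ + n * h) : ℝ) : ℂ)) := by
    refine (p1.sub d1).congr fun n => ?_
    ring
  have f1 : Summable (fun n : ℤ => fw k T U (θ + n * h)) := Complex.summable_ofReal.mp f1c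
  have hfc : Continuous (fun y => ((fw k T U y : ℝ) : ℂ)) :=
    Complex.continuous_ofReal.comp (fw_cont k T U)
  have d2 : Integrable (fun y => psi k T U y - ((fw k T U y : ℝ) : ℂ)) :=
    t3.mono' ((psi_cont k T U).sub hfc).aestronglyMeasurable (Eventually.of_forall hd)
  have f2c : Integrable (fun y => ((fw k T U y : ℝ) : ℂ)) := by
    refine (p2.sub d2).congr (Eventually.of_forall fun y => ?_)
    simp
  have f2 : Integrable (fw k T U) := by
    refine f2c.norm.congr (Eventually.of_forall fun y => ?_)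
    simp only
    rw [Complex.norm_real, Real.norm_of_nonneg (fw_nonneg _ _ _ _)]
  refine ⟨f2, f1, ?_⟩
  have e1 : ((h * ∑' n : ℤ, fw k T U (θ + n * h) - ∫ y, fw k T U y : ℝ) : ℂ) =
      ((h : ℂ) * ∑' n : ℤ, psi k T U (θ + n * h) - ∫ y, psi k T U y) -
      ((h : ℂ) * ∑' n : ℤ, (psi k T U (θ + n * h) - ((fw k T U (θ + n * h) : ℝ) : ℂ)) -
        ∫ y, (psi k T U y - ((fw k T U y : ℝ) : ℂ))) := by
    rw [p1.tsum_sub f1c, integral_sub p2 f2c, integral_complex_ofReal, ← Complex.ofReal_tsum]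
    push_cast
    ring
  have a1 := hq T U hA h hh hh1 hhL θ
  have a2 : ‖(h : ℂ) * ∑' n : ℤ, (psi k T U (θ + n * h) - ((fw k T U (θ + n * h) : ℝ) : ℂ))‖ ≤
      3 / 2 * Real.pi / T ^ (B + 1) := by
    rw [norm_mul, Complex.norm_real, Real.norm_of_nonneg hh.le]
    refine le_trans ?_ t2
    gcongr
    exact tsum_of_norm_bounded t1.hasSum fun n => hd _
  have a3 : ‖∫ y, (psi k T U y - ((fw k T U y : ℝ) : ℂ))‖ ≤ Real.pi / T ^ (B + 1) :=
    (norm_integral_le_of_norm_le t3 (Eventually.of_forall hd)).trans t4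
  have a4 : |h * ∑' n : ℤ, fw k T U (θ + n * h) - ∫ y, fw k T U y| ≤
      K / T ^ (B + 1) + (3 / 2 * Real.pi / T ^ (B + 1) + Real.pi / T ^ (B + 1)) := by
    rw [← Real.norm_eq_abs, ← Complex.norm_real, e1]
    exact (norm_sub_le _ _).trans (add_le_add a1 ((norm_sub_le _ _).trans (add_le_add a2 a3)))
  refine a4.trans ?_
  have hπ := Real.pi_pos
  have e2 : K / T ^ (B + 1) + (3 / 2 * Real.pi / T ^ (B + 1) + Real.pi / T ^ (B + 1)) ≤
      (K + 3 * Real.pi) / T ^ 1 * (1 / T ^ B) := by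
    rw [pow_succ]
    have : K / (T ^ B * T) + (3 / 2 * Real.pi / (T ^ B * T) + Real.pi / (T ^ B * T)) =
        (K + 5 / 2 * Real.pi) / T * (1 / T ^ B) := by
      field_simp
      ring
    rw [this, pow_one]
    have : K + 5 / 2 * Real.pi ≤ K + 3 * Real.pi := by linarith
    gcongr
  refine e2.trans ?_
  have : 0 ≤ 1 / T ^ B := by positivity
  nlinarith

end

end Q97.QQ
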