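import Pool.Agent.Q97.QQ.Msr

set_option autoImplicit false

open MeasureTheory Filter Topology Complex Set
open scoped ENNReal

namespace Q97.QQ

open Q97.MM Q97.BS

noncomputable section

/-- the `2k`-th power of zeta on the critical line -/
def zf (k : ℕ) (t : ℝ) : ℝ := ‖riemannZeta (Q97.BS.pt t)‖ ^ (2 * k)

theorem zf_nonneg (k : ℕ) (t : ℝ) : 0 ≤ zf k t := by unfold zf; positivity

theorem zf_cont (k : ℕ) : Continuous (zf k) := by
  have h1 : Continuous (fun y : ℝ => riemannZeta (Q97.BS.pt y)) := zeta_line_cont (by norm_num)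
  exact h1.norm.pow _

theorem zf_bd (k : ℕ) (t : ℝ) : zf k t ≤ 180 ^ (2 * k) * (1 + |t|) ^ (4 * k) := by
  have h2 := pow_le_pow_left₀ (norm_nonneg _) (zeta_bd t) (2 * k)
  rw [mul_pow, ← pow_mul] at h2
  have e : 2 * (2 * k) = 4 * k := by ring
  rw [e] at h2
  exact h2

def m0 (k : ℕ) : Measure ℝ := volume.withDensity (fun t => ENNReal.ofReal (zf k t))

def mh (k : ℕ) (h : ℝ) : Measure ℝ :=
  Measure.sum (fun n : ℤ => ENNReal.ofReal (h * zf k (n * h)) • Measure.dirac ((n : ℝ) * h))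

instance (k : ℕ) : SFinite (m0 k) := by unfold m0; infer_instance

instance (k : ℕ) (h : ℝ) : SFinite (mh k h) := by unfold mh; infer_instance

theorem m0_lint (k : ℕ) {g : ℝ → ℝ≥0∞} (hg : Measurable g) :
    ∫⁻ t, g t ∂m0 k = ∫⁻ t, ENNReal.ofReal (zf k t) * g t := by
  unfold m0
  rw [lintegral_withDensity_eq_lintegral_mul _ (zf_cont k).measurable.ennreal_ofReal hg]
  rfl

theorem mh_lint (k : ℕ) (h : ℝ) {g : ℝ → ℝ≥0∞} (hg : Measurable g) :
    ∫⁻ t, g t ∂mh k h = ∑' n : ℤ, ENNReal.ofReal (h * zf k (n * h)) * g (n * h) := by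
  unfold mh
  rw [lintegral_sum_measure]
  refine tsum_congr fun n => ?_
  rw [lintegral_smul_measure, lintegral_dirac' _ hg, smul_eq_mul]

theorem fw_one (k : ℕ) (u t : ℝ) : fw k u 1 t = zf k t * wt u 1 t := rfl

/-- the edge term -/
def EE (k : ℕ) (T : ℝ) : ℝ := ∫ t, fw k T 1 t

theorem EE_nonneg (k : ℕ) (T : ℝ) : 0 ≤ EE k T := integral_nonneg fun t => fw_nonneg _ _ _ _

theorem m0_gw (k : ℕ) {u : ℝ} (hi : Integrable (fw k u 1)) :
    ∫⁻ t, gw u t ∂m0 k = ENNReal.ofReal (EE k u) := by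
  rw [m0_lint k (gw_meas u), EE,
    ofReal_integral_eq_lintegral_ofReal hi (Eventually.of_forall fun t => fw_nonneg _ _ _ _)]
  refine lintegral_congr fun t => ?_
  rw [gw, ← ENNReal.ofReal_mul (zf_nonneg _ _), fw_one]

theorem mh_gw (k : ℕ) {u h : ℝ} (hh : 0 < h) (hs : Summable (fun n : ℤ => fw k u 1 (n * h))) :
    ∫⁻ t, gw u t ∂mh k h = ENNReal.ofReal (h * ∑' n : ℤ, fw k u 1 (n * h)) := by
  rw [mh_lint k h (gw_meas u), ← tsum_mul_left,
    ENNReal.ofReal_tsum_of_nonneg (fun n => mul_nonneg hh.le (fw_nonneg _ _ _ _)) (hs.mul_left h)]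
  refine tsum_congr fun n => ?_
  rw [gw, ← ENNReal.ofReal_mul (mul_nonneg hh.le (zf_nonneg _ _)), fw_one, mul_assoc]

/-- exact quadrature at unit windows -/
theorem exact_m {k : ℕ} (hk : 1 ≤ k) {δ : ℝ} (hδ : 0 < δ) (hδk : δ < 1 / k) :
    ∀ᶠ u : ℝ in atTop, Integrable (fw k u 1) ∧ ∀ h : ℝ, 0 < h → h ≤ 2 * Real.pi * δ / Real.log u →
      ∫⁻ t, gw u t ∂mh k h ≤ ∫⁻ t, gw u t ∂m0 k + ENNReal.ofReal (1 / u ^ 2) ∧
      ∫⁻ t, gw u t ∂m0 k ≤ ∫⁻ t, gw u t ∂mh k h + ENNReal.ofReal (1 / u ^ 2) := by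
  filter_upwards [Q97.QQ.exact hk hδ hδk 2, eventually_ge_atTop 3] with u h1 hu
  have hu0 : 0 < u := by linarith
  have hL : 0 < Real.log u := lt_of_lt_of_le one_pos (log_pos' hu)
  have hA : Adm u 1 := by
    refine ⟨hu, le_rfl, ?_⟩
    rw [le_div_iff₀ hL, one_mul]
    have := Real.log_le_sub_one_of_pos hu0
    linarith
  have hπ := Real.pi_pos
  have hi : Integrable (fw k u 1) := (h1 1 hA (2 * Real.pi * δ / Real.log u) (by positivity) le_rfl 0).1
  refine ⟨hi, fun h hh hhL => ?_⟩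
  obtain ⟨-, h3, h4⟩ := h1 1 hA h hh hhL 0
  simp only [zero_add] at h3 h4
  have hs : 0 ≤ h * ∑' n : ℤ, fw k u 1 (n * h) :=
    mul_nonneg hh.le (tsum_nonneg fun n => fw_nonneg _ _ _ _)
  have hE := EE_nonneg k u
  rw [m0_gw k hi, mh_gw k hh h3]
  obtain ⟨h5, h6⟩ := abs_le.mp h4
  constructor
  · rw [← ENNReal.ofReal_add hE (by positivity)]
    apply ENNReal.ofReal_le_ofReal
    unfold EE
    linarith
  · rw [← ENNReal.ofReal_add hs (by positivity)]
    apply ENNReal.ofReal_le_ofReal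
    unfold EE
    linarith

/-- the moment -/
def FF0 (k : ℕ) (T : ℝ) : ℝ := ∫ t in (0 : ℝ)..T, zf k t

/-- the Riemann sum -/
def DD (k : ℕ) (T h : ℝ) : ℝ := h * ∑ n ∈ Finset.Icc 1 ⌊T / h⌋₊, zf k (n * h)

theorem m0_Ioc (k : ℕ) {a b : ℝ} (hab : a ≤ b) :
    m0 k (Ioc a b) = ENNReal.ofReal (FF0 k b - FF0 k a) := by
  have hii : ∀ x y : ℝ, IntervalIntegrable (zf k) volume x y := fun x y =>
    (zf_cont k).intervalIntegrable _ _
  have e : FF0 k b - FF0 k a = ∫ t in Ioc a b, zf k t := by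
    unfold FF0
    rw [← intervalIntegral.integral_of_le hab]
    have := intervalIntegral.integral_add_adjacent_intervals (hii 0 a) (hii a b)
    linarith
  unfold m0
  rw [withDensity_apply _ measurableSet_Ioc, e, ofReal_integral_eq_lintegral_ofReal
    (((zf_cont k).intervalIntegrable a b).1) (Eventually.of_forall fun t => zf_nonneg _ _)]

theorem mh_set (k : ℕ) (h : ℝ) {S : Set ℝ} (hS : MeasurableSet S) :
    mh k h S = ∑' n : ℤ, ENNReal.ofReal (h * zf k (n * h)) * S.indicator 1 ((n : ℝ) * h) := by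
  have h1 := mh_lint k h (g := S.indicator 1) (measurable_one.indicator hS)
  rw [lintegral_indicator_one hS] at h1
  exact h1

theorem mh_zero (k : ℕ) {T h : ℝ} (hT : 0 ≤ T) (hh : 0 < h) :
    mh k h (Ioc 0 T) = ENNReal.ofReal (DD k T h) := by
  rw [mh_set k h measurableSet_Ioc,
    tsum_eq_sum (s := (Finset.Icc 1 ⌊T / h⌋₊).map Nat.castEmbedding), Finset.sum_map]
  · unfold DD
    rw [Finset.mul_sum, ENNReal.ofReal_sum_of_nonneg
      (fun n _ => mul_nonneg hh.le (zf_nonneg _ _))]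
    refine Finset.sum_congr rfl fun n hn => ?_
    rw [Finset.mem_Icc] at hn
    simp only [Nat.castEmbedding_apply, Int.cast_natCast]
    rw [indicator_of_mem, Pi.one_apply, mul_one]
    have hn1 : (1 : ℝ) ≤ n := by exact_mod_cast hn.1
    have hn2 : (n : ℝ) ≤ T / h := (Nat.le_floor_iff (by positivity)).mp hn.2
    rw [le_div_iff₀ hh] at hn2
    exact ⟨by positivity, hn2⟩
  · intro n hn
    rw [indicator_of_notMem, mul_zero]
    intro h1
    apply hn
    rw [Finset.mem_map]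
    have hn0 : 0 < n := by
      have h2 : 0 < (n : ℝ) * h := h1.1
      have h3 : (0 : ℝ) < n := by
        by_contra h4
        push Not at h4
        nlinarith
      exact_mod_cast h3
    refine ⟨n.toNat, ?_, ?_⟩
    · rw [Finset.mem_Icc]
      refine ⟨by omega, ?_⟩
      rw [Nat.le_floor_iff (by positivity), le_div_iff₀ hh]
      have h5 : ((n.toNat : ℕ) : ℝ) = (n : ℝ) := by
        exact_mod_cast Int.toNat_of_nonneg hn0.le
      rw [h5]
      exact h1.2
    · simp only [Nat.castEmbedding_apply]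
      exact Int.toNat_of_nonneg hn0.le

theorem DD_nonneg (k : ℕ) {T h : ℝ} (hh : 0 < h) : 0 ≤ DD k T h :=
  mul_nonneg hh.le (Finset.sum_nonneg fun n _ => zf_nonneg _ _)

theorem FF0_nonneg (k : ℕ) {T : ℝ} (hT : 0 ≤ T) : 0 ≤ FF0 k T :=
  intervalIntegral.integral_nonneg hT fun t _ => zf_nonneg _ _

theorem mh_Ioc (k : ℕ) {a b h : ℝ} (ha : 0 ≤ a) (hab : a ≤ b) (hh : 0 < h) :
    DD k a h ≤ DD k b h ∧ mh k h (Ioc a b) = ENNReal.ofReal (DD k b h - DD k a h) := by
  have h1 := mh_zero k ha hh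
  have h2 := mh_zero k (ha.trans hab) hh
  have h3 : mh k h (Ioc 0 b) = mh k h (Ioc 0 a) + mh k h (Ioc a b) := by
    rw [← Ioc_union_Ioc_eq_Ioc ha hab]
    exact measure_union (Set.Ioc_disjoint_Ioc_of_le le_rfl) measurableSet_Ioc
  have h4 : DD k a h ≤ DD k b h := by
    have h5 : ENNReal.ofReal (DD k a h) ≤ ENNReal.ofReal (DD k b h) := by
      rw [← h1, ← h2, h3]
      exact le_self_add
    exact (ENNReal.ofReal_le_ofReal_iff (DD_nonneg k hh)).mp h5
  refine ⟨h4, ?_⟩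
  rw [ENNReal.ofReal_sub _ (DD_nonneg k hh), ← h1, ← h2, h3,
    ENNReal.add_sub_cancel_left]
  rw [h1]
  exact ENNReal.ofReal_ne_top

theorem FF0_mono (k : ℕ) {a b : ℝ} (ha : 0 ≤ a) (hab : a ≤ b) : FF0 k a ≤ FF0 k b := by
  have hii : ∀ x y : ℝ, IntervalIntegrable (zf k) volume x y := fun x y =>
    (zf_cont k).intervalIntegrable _ _
  have h1 := intervalIntegral.integral_add_adjacent_intervals (hii 0 a) (hii a b)
  have h2 : 0 ≤ ∫ t in a..b, zf k t := intervalIntegral.integral_nonneg hab fun t _ => zf_nonneg _ _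
  unfold FF0
  linarith

theorem DD_bd (k : ℕ) {T h : ℝ} (hT : 0 ≤ T) (hh : 0 < h) :
    DD k T h ≤ T * (180 ^ (2 * k) * (1 + T) ^ (4 * k)) := by
  unfold DD
  have h1 : ∑ n ∈ Finset.Icc 1 ⌊T / h⌋₊, zf k (n * h) ≤
      ⌊T / h⌋₊ • (180 ^ (2 * k) * (1 + T) ^ (4 * k)) := by
    have := Finset.sum_le_card_nsmul (Finset.Icc 1 ⌊T / h⌋₊) (fun n : ℕ => zf k (n * h))
      (180 ^ (2 * k) * (1 + T) ^ (4 * k)) (fun n hn => by
        rw [Finset.mem_Icc] at hn
        have hn2 : (n : ℝ) ≤ T / h := (Nat.le_floor_iff (by positivity)).mp hn.2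
        rw [le_div_iff₀ hh] at hn2
        refine (zf_bd k _).trans ?_
        have : |(n : ℝ) * h| = n * h := abs_of_nonneg (by positivity)
        rw [this]
        gcongr)
    rwa [Nat.card_Icc, Nat.add_sub_cancel] at this
  rw [nsmul_eq_mul] at h1
  have h2 : (⌊T / h⌋₊ : ℝ) ≤ T / h := Nat.floor_le (by positivity)
  calc h * ∑ n ∈ Finset.Icc 1 ⌊T / h⌋₊, zf k (n * h)
      ≤ h * (T / h * (180 ^ (2 * k) * (1 + T) ^ (4 * k))) := by
        gcongr
        refine h1.trans ?_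
        gcongr
    _ = _ := by field_simp

/-- The Riemann sum and the integral differ by at most the edge term. -/
theorem edge {k : ℕ} (hk : 1 ≤ k) {δ : ℝ} (hδ : 0 < δ) (hδk : δ < 1 / k) :
    ∃ C : ℝ, 0 < C ∧ ∀ᶠ T : ℝ in atTop, ∀ h : ℝ, 0 < h → h ≤ 2 * Real.pi * δ / Real.log T →
      |DD k T h - FF0 k T| ≤ 2 * EE k T + C := by
  obtain ⟨T₁, hT₁⟩ := eventually_atTop.mp (exact_m hk hδ hδk)
  set T₀ := max T₁ 3 with hT₀
  have h3 : 3 ≤ T₀ := le_max_right _ _
  have hE0 := EE_nonneg k T₀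
  set C₀ := T₀ * (180 ^ (2 * k) * (1 + T₀) ^ (4 * k)) with hC₀
  have hC0 : 0 < C₀ := by positivity
  have hF0 := FF0_nonneg k (show 0 ≤ T₀ by linarith)
  have hπ := Real.pi_pos
  refine ⟨2 + 2 * EE k T₀ + 2 * Real.pi + C₀ + FF0 k T₀, by positivity, ?_⟩
  filter_upwards [eventually_ge_atTop T₀] with T hT h hh hhL
  have hT3 : 3 ≤ T := h3.trans hT
  have hLh : ∀ u : ℝ, T₀ ≤ u → u ≤ T → h ≤ 2 * Real.pi * δ / Real.log u := by
    intro u hu huT
    have h0 : 0 < Real.log u := lt_of_lt_of_le one_pos (log_pos' (h3.trans hu))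
    refine hhL.trans ?_
    apply div_le_div_of_nonneg_left (by positivity) h0
    exact Real.log_le_log (by linarith) huT
  have hfrom : ∀ u : ℝ, T₀ ≤ u → T₁ ≤ u := fun u hu => (le_max_left _ _).trans hu
  have hE := EE_nonneg k T
  have w : ∀ u : ℝ, T₀ ≤ u → u ≤ T → ∫⁻ t, gw u t ∂m0 k = ENNReal.ofReal (EE k u) ∧
      ∫⁻ t, gw u t ∂mh k h ≤ ENNReal.ofReal (EE k u + 1) := by
    intro u hu huT
    obtain ⟨hi, hq⟩ := hT₁ u (hfrom u hu)
    have e1 := m0_gw k hi
    refine ⟨e1, ?_⟩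
    refine (hq h hh (hLh u hu huT)).1.trans ?_
    rw [e1, ← ENNReal.ofReal_add (EE_nonneg k u) (by positivity)]
    apply ENNReal.ofReal_le_ofReal
    have hu3 : 3 ≤ u := h3.trans hu
    have : 1 / u ^ 2 ≤ 1 := by
      rw [div_le_one (by positivity)]
      nlinarith
    linarith
  obtain ⟨w1, w2⟩ := w T hT le_rfl
  obtain ⟨w3, w4⟩ := w T₀ le_rfl hT
  obtain ⟨d1, d2⟩ := mh_Ioc k (a := T₀) (b := T) (by linarith) hT hh
  have f2 := m0_Ioc k hT
  have f1 := FF0_mono k (show 0 ≤ T₀ by linarith) hT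
  have s1 := sharp (μ := mh k h) (ν := m0 k) (T₀ := T₀) (T := T) (by linarith) hT
    fun u hu huT => ((hT₁ u (hfrom u hu)).2 h hh (hLh u hu huT)).1
  have s2 := sharp (μ := m0 k) (ν := mh k h) (T₀ := T₀) (T := T) (by linarith) hT
    fun u hu huT => ((hT₁ u (hfrom u hu)).2 h hh (hLh u hu huT)).2
  rw [d2, f2, w1, w3] at s1 s2
  have r1 : DD k T h - DD k T₀ h ≤ (FF0 k T - FF0 k T₀) + ((EE k T + 1) + (EE k T₀ + 1)) +
      (EE k T + EE k T₀) + 2 * Real.pi := by
    rw [← ENNReal.ofReal_le_ofReal_iff (by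
      have : 0 ≤ FF0 k T - FF0 k T₀ := by linarith
      positivity)]
    rw [ENNReal.ofReal_add (by
        have : 0 ≤ FF0 k T - FF0 k T₀ := by linarith
        positivity) (by positivity),
      ENNReal.ofReal_add (by
        have : 0 ≤ FF0 k T - FF0 k T₀ := by linarith
        positivity) (by positivity),
      ENNReal.ofReal_add (by linarith) (by positivity),
      ENNReal.ofReal_add (by positivity) (by positivity),
      ENNReal.ofReal_add hE hE0]
    refine s1.trans ?_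
    gcongr
  have r2 : FF0 k T - FF0 k T₀ ≤ (DD k T h - DD k T₀ h) + (EE k T + EE k T₀) +
      ((EE k T + 1) + (EE k T₀ + 1)) + 2 * Real.pi := by
    rw [← ENNReal.ofReal_le_ofReal_iff (by
      have : 0 ≤ DD k T h - DD k T₀ h := by linarith
      positivity)]
    rw [ENNReal.ofReal_add (by
        have : 0 ≤ DD k T h - DD k T₀ h := by linarith
        positivity) (by positivity),
      ENNReal.ofReal_add (by
        have : 0 ≤ DD k T h - DD k T₀ h := by linarith
        positivity) (by positivity),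
      ENNReal.ofReal_add (by linarith) (by positivity),
      ENNReal.ofReal_add hE hE0,
      ENNReal.ofReal_add (by positivity) (by positivity)]
    refine s2.trans ?_
    gcongr
  have r3 := DD_bd k (T := T₀) (h := h) (by linarith) hh
  have r4 := DD_nonneg k (T := T₀) hh
  rw [← hC₀] at r3
  rw [abs_le]
  constructor
  · linarith
  · linarith

end

end Q97.QQ
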