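import Pool.Agent.Q97.QQ.Psi

set_option autoImplicit false

open MeasureTheory Filter Topology Complex Set FourierTransform
open scoped ComplexConjugate

namespace Q97.QQ

open Q97.MM Q97.BS

noncomputable section

theorem one_sub_pt (y : ℝ) : 1 - Q97.BS.pt y = conj (Q97.BS.pt y) := by
  unfold Q97.BS.pt
  simp only [map_add, map_mul, Complex.conj_ofReal, Complex.conj_I]
  push_cast
  ring

/-- the factor by which `psi` differs from the moment density -/
def qf (k : ℕ) (T y : ℝ) : ℝ := ‖1 - cexp (I * (lm k T : ℝ) * Q97.BS.pt y)‖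

theorem psi_eq (k : ℕ) (T U y : ℝ) :
    psi k T U y = ((‖riemannZeta (Q97.BS.pt y)‖ ^ (2 * k) * wt T U y * qf k T y ^ (2 * k) : ℝ) : ℂ) := by
  have hne1 : Q97.BS.pt y ≠ 1 := Q97.MM.pt_ne y
  have hne0 : Q97.BS.pt y ≠ 0 := by
    intro h
    have := congrArg Complex.re h
    unfold Q97.BS.pt at this
    simp at this
  have h1 : riemannZeta (Q97.BS.pt y) * riemannZeta (1 - Q97.BS.pt y) =
      ((‖riemannZeta (Q97.BS.pt y)‖ ^ 2 : ℝ) : ℂ) := by
    rw [one_sub_pt, riemannZeta_conj, Complex.mul_conj, Complex.normSq_eq_norm_sq]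
  have h2 : (cexp (I * (lm k T : ℝ) * (Q97.BS.pt y - 1)) - 1) *
      (cexp (I * (lm k T : ℝ) * Q97.BS.pt y) - 1) = ((qf k T y ^ 2 : ℝ) : ℂ) := by
    have e1 : Q97.BS.pt y - 1 = -conj (Q97.BS.pt y) := by
      rw [← one_sub_pt]; ring
    have e2 : cexp (I * (lm k T : ℝ) * (Q97.BS.pt y - 1)) =
        conj (cexp (I * (lm k T : ℝ) * Q97.BS.pt y)) := by
      rw [← Complex.exp_conj, e1]
      congr 1
      simp only [map_mul, Complex.conj_I, Complex.conj_ofReal]
      ring
    set a := cexp (I * (lm k T : ℝ) * Q97.BS.pt y) with ha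
    have e3 : (conj a - 1) * (a - 1) = conj (1 - a) * (1 - a) := by
      simp only [map_sub, map_one]
      ring
    rw [e2, e3, mul_comm, Complex.mul_conj, Complex.normSq_eq_norm_sq, qf, ha]
  have h3 : cexp ((Q97.BS.pt y - 1 / 2 - T * I) ^ 2 / (U : ℂ) ^ 2) = ((wt T U y : ℝ) : ℂ) := by
    rw [wt, Complex.ofReal_exp]
    congr 1
    unfold Q97.BS.pt
    push_cast
    have e : ((1 / 2 : ℂ) + y * I - 1 / 2 - T * I) ^ 2 = -((y : ℂ) - T) ^ 2 := by
      linear_combination ((y : ℂ) - T) ^ 2 * Complex.I_sq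
    rw [e, div_pow]
    ring
  rw [psi, Ps, Pz_eq _ hne1 hne0, h1, h2, h3]
  push_cast
  rw [mul_pow, ← pow_mul, ← pow_mul]
  ring

theorem qf_bd (k : ℕ) {T : ℝ} (y : ℝ) :
    |qf k T y - 1| ≤ Real.exp (-(lm k T * y)) ∧ qf k T y ≤ 1 + Real.exp (-(lm k T * y)) := by
  have h1 : ‖cexp (I * (lm k T : ℝ) * Q97.BS.pt y)‖ = Real.exp (-(lm k T * y)) := by
    rw [norm_exp_I]
    congr 3
    unfold Q97.BS.pt
    simp
  have h2 : |qf k T y - 1| ≤ Real.exp (-(lm k T * y)) := by
    have := abs_norm_sub_norm_le (1 - cexp (I * (lm k T : ℝ) * Q97.BS.pt y)) 1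
    rw [norm_one, sub_sub_cancel_left, norm_neg, h1] at this
    exact this
  refine ⟨h2, ?_⟩
  linarith [le_abs_self (qf k T y - 1)]

theorem qf_nonneg (k : ℕ) (T y : ℝ) : 0 ≤ qf k T y := norm_nonneg _

theorem gen (N D : ℕ) (C₀ : ℝ) {c : ℝ} (hc : 0 < c) : ∀ᶠ T : ℝ in atTop, ∀ U : ℝ, Adm T U →
    ∀ y r : ℝ, 0 ≤ r → r ≤ Real.exp (-(c * Real.log T ^ 2)) →
      C₀ * (1 + |y|) ^ N * Real.exp (-(((y - T) / U) ^ 2 / 4)) * r ≤ tR D T y := by
  obtain ⟨C, hC, hC'⟩ := poly_le_exp (N + 2) (1 / 4) (by norm_num)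
  have h1 := (tail_tendsto (N + 2 + D) (η := √(2 * c)) (Real.sqrt_pos.2 (by positivity))).const_mul
    (|C₀| * C)
  rw [mul_zero] at h1
  filter_upwards [h1.eventually (gt_mem_nhds one_pos), eventually_ge_atTop 3] with T h2 hT U hA y r
    hr0 hr
  have hT0 : 0 < T := by linarith
  have hU := hA.pos
  have hL := hA.log
  have e0 : (√(2 * c) * Real.log T) ^ 2 / 2 = c * Real.log T ^ 2 := by
    rw [mul_pow, Real.sq_sqrt (by positivity)]
    ring
  rw [e0] at h2
  set z := |(y - T) / U| with hz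
  have hz0 : 0 ≤ z := abs_nonneg _
  have hzU : |y - T| = U * z := by
    rw [hz, abs_div, abs_of_pos hU]
    field_simp
  have a1 : 1 + |y| ≤ (1 + T) * (1 + z) := abs_le_scaled hU hT0.le hA.le y
  have a2 : 1 + |y - T| ≤ (1 + T) * (1 + z) := by
    rw [hzU]
    have := hA.le
    nlinarith
  have a3 : ((y - T) / U) ^ 2 = z ^ 2 := by rw [hz, sq_abs]
  rw [a3]
  have a5 : (1 + z) ^ (N + 2) * Real.exp (-(z ^ 2 / 4)) ≤ C := by
    have h3 := hC' z
    rw [abs_of_nonneg hz0] at h3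
    rw [Real.exp_neg, mul_inv_le_iff₀ (Real.exp_pos _)]
    refine h3.trans (le_of_eq ?_)
    congr 2
    ring
  unfold tR
  rw [le_div_iff₀ (by positivity)]
  calc C₀ * (1 + |y|) ^ N * Real.exp (-(z ^ 2 / 4)) * r * (T ^ D * (1 + |y - T|) ^ 2)
      ≤ |C₀| * ((1 + T) * (1 + z)) ^ N * Real.exp (-(z ^ 2 / 4)) * r *
        ((1 + T) ^ D * ((1 + T) * (1 + z)) ^ 2) := by
        gcongr
        · exact le_abs_self _
        · linarith
    _ = |C₀| * (1 + T) ^ (N + 2 + D) * ((1 + z) ^ (N + 2) * Real.exp (-(z ^ 2 / 4))) * r := by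
        rw [mul_pow, mul_pow, pow_add, pow_add, pow_add]
        ring
    _ ≤ |C₀| * (1 + T) ^ (N + 2 + D) * C * Real.exp (-(c * Real.log T ^ 2)) := by
        gcongr
    _ = |C₀| * C * ((1 + T) ^ (N + 2 + D) * Real.exp (-(c * Real.log T ^ 2))) := by ring
    _ ≤ 1 := h2.le

/-- `psi` is the moment density up to a very small error -/
theorem psi_cmp {k : ℕ} (hk : 1 ≤ k) (D : ℕ) : ∀ᶠ T : ℝ in atTop, ∀ U : ℝ, Adm T U → ∀ y : ℝ,
    ‖psi k T U y - ((‖riemannZeta (Q97.BS.pt y)‖ ^ (2 * k) * wt T U y : ℝ) : ℂ)‖ ≤ tR D T y := by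
  have hk0 : (0 : ℝ) < k := by exact_mod_cast hk
  set c : ℝ := min (1 / (4 * k)) (1 / 16) with hc
  have hc0 : 0 < c := lt_min (by positivity) (by norm_num)
  filter_upwards [gen (4 * k) D (180 ^ (2 * k) * (2 * k * 4 ^ k + 1) * 4 ^ k) hc0,
    eventually_ge_atTop 3] with T h1 hT U hA y
  have hT0 : 0 < T := by linarith
  have hU := hA.pos
  have hL := hA.log
  have hf : ‖riemannZeta (Q97.BS.pt y)‖ ^ (2 * k) ≤ 180 ^ (2 * k) * (1 + |y|) ^ (4 * k) := by
    have h2 := pow_le_pow_left₀ (norm_nonneg _) (zeta_bd y) (2 * k)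
    rw [mul_pow, ← pow_mul] at h2
    have e : 2 * (2 * k) = 4 * k := by ring
    rw [e] at h2
    exact h2
  set f := ‖riemannZeta (Q97.BS.pt y)‖ ^ (2 * k) with hfd
  have hf0 : 0 ≤ f := by positivity
  set g := 180 ^ (2 * k) * (1 + |y|) ^ (4 * k) with hg
  have hg0 : 0 ≤ g := by positivity
  have hw0 := wt_pos T U y
  rw [psi_eq, ← hfd, ← Complex.ofReal_sub, Complex.norm_real, Real.norm_eq_abs]
  have e1 : f * wt T U y * qf k T y ^ (2 * k) - f * wt T U y =
      f * wt T U y * (qf k T y ^ (2 * k) - 1) := by ring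
  rw [e1, abs_mul, abs_of_nonneg (by positivity)]
  obtain ⟨q1, q2⟩ := qf_bd k (T := T) y
  have hq0 := qf_nonneg k T y
  have hlm := lm_nonneg k hT0
  have hwt : wt T U y = Real.exp (-(((y - T) / U) ^ 2)) := rfl
  have h4k : (1 : ℝ) ≤ 4 ^ k := one_le_pow₀ (by norm_num)
  rcases le_total (T / 2) y with hy | hy
  · -- the main range
    have b1 : Real.exp (-(lm k T * y)) ≤ Real.exp (-(1 / (4 * k) * Real.log T ^ 2)) := by
      apply Real.exp_le_exp.2
      apply neg_le_neg
      calc 1 / (4 * (k : ℝ)) * Real.log T ^ 2 = lm k T * (T / 2) := by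
            unfold lm
            field_simp
            ring
        _ ≤ lm k T * y := by gcongr
    have b2 : Real.exp (-(1 / (4 * k) * Real.log T ^ 2)) ≤ Real.exp (-(c * Real.log T ^ 2)) := by
      apply Real.exp_le_exp.2
      apply neg_le_neg
      have : c ≤ 1 / (4 * k) := min_le_left _ _
      gcongr
    set r := Real.exp (-(lm k T * y)) with hr
    have hr0 : 0 ≤ r := (Real.exp_pos _).le
    have hr1 : r ≤ 1 := by
      rw [hr, Real.exp_le_one_iff]
      have : 0 ≤ lm k T * y := mul_nonneg hlm (by linarith)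
      linarith
    have b3 : |qf k T y ^ (2 * k) - 1| ≤ 2 * k * 4 ^ k * r := by
      have h5 := abs_pow_sub_pow_le (qf k T y) 1 (2 * k)
      rw [one_pow, abs_one, abs_of_nonneg hq0] at h5
      have h6 : max (qf k T y) 1 ≤ 2 := max_le (by linarith) (by norm_num)
      have h7 : max (qf k T y) 1 ^ (2 * k - 1) ≤ 4 ^ k := by
        calc max (qf k T y) 1 ^ (2 * k - 1) ≤ 2 ^ (2 * k - 1) :=
              pow_le_pow_left₀ (by positivity) h6 _
          _ ≤ 2 ^ (2 * k) := pow_le_pow_right₀ (by norm_num) (by omega)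
          _ = 4 ^ k := by rw [pow_mul]; norm_num
      push_cast at h5
      calc |qf k T y ^ (2 * k) - 1| ≤ |qf k T y - 1| * (2 * k) * max (qf k T y) 1 ^ (2 * k - 1) := h5
        _ ≤ r * (2 * k) * 4 ^ k := by gcongr
        _ = _ := by ring
    have b4 : wt T U y ≤ Real.exp (-(((y - T) / U) ^ 2 / 4)) := by
      rw [hwt]
      apply Real.exp_le_exp.2
      have : 0 ≤ ((y - T) / U) ^ 2 := by positivity
      linarith
    refine le_trans ?_ (h1 U hA y r hr0 (b1.trans b2))
    calc f * wt T U y * |qf k T y ^ (2 * k) - 1|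
        ≤ g * Real.exp (-(((y - T) / U) ^ 2 / 4)) * (2 * k * 4 ^ k * r) := by gcongr
      _ ≤ g * Real.exp (-(((y - T) / U) ^ 2 / 4)) * ((2 * k * 4 ^ k + 1) * 4 ^ k * r) := by
          have : 2 * (k : ℝ) * 4 ^ k ≤ (2 * k * 4 ^ k + 1) * 4 ^ k := by
            have : 0 ≤ 2 * (k : ℝ) * 4 ^ k := by positivity
            nlinarith
          gcongr
      _ = _ := by rw [hg]; ring
  · -- the far range
    set z := (y - T) / U with hz
    have hz1 : Real.log T / 2 ≤ |z| := by
      rw [hz, abs_div, abs_of_pos hU, le_div_iff₀ hU, abs_of_nonpos (by linarith)]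
      have h3 : U * Real.log T ≤ T := by
        have := hA.2.2
        rwa [le_div_iff₀ (by linarith)] at this
      linarith
    have hz2 : Real.log T ^ 2 / 4 ≤ z ^ 2 := by
      have := pow_le_pow_left₀ (by positivity) hz1 2
      rw [sq_abs] at this
      linarith
    have b1 : Real.exp (-(z ^ 2 / 4)) ≤ Real.exp (-(c * Real.log T ^ 2)) := by
      apply Real.exp_le_exp.2
      apply neg_le_neg
      have : c ≤ 1 / 16 := min_le_right _ _
      calc c * Real.log T ^ 2 ≤ 1 / 16 * Real.log T ^ 2 := by gcongr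
        _ ≤ z ^ 2 / 4 := by linarith
    have b2 : |qf k T y ^ (2 * k) - 1| ≤ (2 * k * 4 ^ k + 1) * 4 ^ k *
        Real.exp ((2 * lm k T * max 0 (-y)) * k) := by
      have h5 : qf k T y ≤ 2 * Real.exp (lm k T * max 0 (-y)) := by
        have h6 : Real.exp (-(lm k T * y)) ≤ Real.exp (lm k T * max 0 (-y)) := by
          apply Real.exp_le_exp.2
          rw [← mul_neg]
          exact mul_le_mul_of_nonneg_left (le_max_right _ _) hlm
        have h7 : 1 ≤ Real.exp (lm k T * max 0 (-y)) := by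
          rw [← Real.exp_zero]
          exact Real.exp_le_exp.2 (mul_nonneg hlm (le_max_left _ _))
        linarith
      have h8 : qf k T y ^ (2 * k) ≤ 4 ^ k * Real.exp ((2 * lm k T * max 0 (-y)) * k) := by
        have h9 := pow_le_pow_left₀ hq0 h5 (2 * k)
        refine h9.trans (le_of_eq ?_)
        rw [mul_pow, ← Real.exp_nat_mul, pow_mul]
        push_cast
        congr 1
        · norm_num
        · congr 1
          ring
      have h9 : 1 ≤ Real.exp ((2 * lm k T * max 0 (-y)) * k) := by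
        rw [← Real.exp_zero]
        exact Real.exp_le_exp.2 (mul_nonneg (mul_nonneg (by positivity) (le_max_left _ _)) hk0.le)
      have h10 : |qf k T y ^ (2 * k) - 1| ≤ 4 ^ k * Real.exp ((2 * lm k T * max 0 (-y)) * k) := by
        rw [abs_le]
        constructor
        · have : 0 ≤ qf k T y ^ (2 * k) := by positivity
          nlinarith
        · linarith
      refine h10.trans ?_
      have : 4 ^ k ≤ (2 * (k : ℝ) * 4 ^ k + 1) * 4 ^ k := by
        have : 0 ≤ 2 * (k : ℝ) * 4 ^ k := by positivity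
        nlinarith
      gcongr
    have b3 : Real.exp ((2 * lm k T * max 0 (-y)) * k) * wt T U y ≤ Real.exp (-(z ^ 2 / 2)) := by
      rw [hwt, ← Real.exp_add]
      apply Real.exp_le_exp.2
      have h11 := compete hk hA y
      have h12 : (y - T) ^ 2 / U ^ 2 = z ^ 2 := by rw [hz, div_pow]
      rw [h12, ← hz] at h11
      unfold lm
      linarith
    refine le_trans ?_ (h1 U hA y (Real.exp (-(z ^ 2 / 4))) (Real.exp_pos _).le b1)
    calc f * wt T U y * |qf k T y ^ (2 * k) - 1|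
        ≤ g * wt T U y * ((2 * k * 4 ^ k + 1) * 4 ^ k *
            Real.exp ((2 * lm k T * max 0 (-y)) * k)) := by gcongr
      _ = g * ((2 * k * 4 ^ k + 1) * 4 ^ k) *
            (Real.exp ((2 * lm k T * max 0 (-y)) * k) * wt T U y) := by ring
      _ ≤ g * ((2 * k * 4 ^ k + 1) * 4 ^ k) * Real.exp (-(z ^ 2 / 2)) := by gcongr
      _ = g * ((2 * k * 4 ^ k + 1) * 4 ^ k) * (Real.exp (-(z ^ 2 / 4)) * Real.exp (-(z ^ 2 / 4))) := by
          rw [← Real.exp_add]
          congr 2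
          ring
      _ = _ := by rw [hg]; ring

end

end Q97.QQ
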