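import Pool.Agent.Q97.BS.Sam

set_option autoImplicit false

open MeasureTheory Filter Topology Complex Set FourierTransform

namespace Q97.QQ

open Q97.MM Q97.BS

noncomputable section

/-- the entire function `(exp(iλz) - 1)/z` -/
def ex (lam : ℝ) : ℂ → ℂ := dslope (fun z => cexp (I * lam * z)) 0

theorem ex_diff (lam : ℝ) : Differentiable ℂ (ex lam) := by
  have h : Differentiable ℂ (fun z => cexp (I * lam * z)) := by fun_prop
  have h2 := (Complex.differentiableOn_dslope (f := fun z => cexp (I * lam * z)) (c := 0)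
    (s := univ) univ_mem).2 h.differentiableOn
  exact differentiableOn_univ.mp h2

theorem ex_of_ne (lam : ℝ) {z : ℂ} (hz : z ≠ 0) : ex lam z = (cexp (I * lam * z) - 1) / z := by
  rw [ex, dslope_of_ne _ hz, slope_def_field]
  simp

theorem ex_mul (lam : ℝ) (z : ℂ) : z * ex lam z = cexp (I * lam * z) - 1 := by
  rcases eq_or_ne z 0 with rfl | hz
  · simp
  · rw [ex_of_ne lam hz]
    field_simp

theorem norm_exp_I (lam : ℝ) (z : ℂ) : ‖cexp (I * lam * z)‖ = Real.exp (-(lam * z.im)) := by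
  rw [Complex.norm_exp]
  congr 1
  have : I * (lam : ℂ) * z = ((lam : ℝ) : ℂ) * (z * I) := by ring
  rw [this, Complex.re_ofReal_mul, Complex.mul_I_re]
  ring

theorem ex_zero (lam : ℝ) : ex lam 0 = I * lam := by
  rw [ex, dslope_same]
  have h : HasDerivAt (fun z : ℂ => cexp (I * lam * z)) (cexp (I * lam * 0) * (I * lam)) 0 := by
    have h1 : HasDerivAt (fun z : ℂ => I * lam * z) (I * lam) 0 := by
      simpa using (hasDerivAt_id (0 : ℂ)).const_mul (I * (lam : ℂ))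
    exact h1.cexp
  rw [h.deriv]
  simp

theorem ex_bd {lam : ℝ} (h0 : 0 ≤ lam) (h1 : lam ≤ 1) (z : ℂ) :
    ‖ex lam z‖ ≤ 3 * Real.exp (lam * max 0 (-z.im)) := by
  have hE : 1 ≤ Real.exp (lam * max 0 (-z.im)) := by
    rw [← Real.exp_zero]
    exact Real.exp_le_exp.2 (mul_nonneg h0 (le_max_left _ _))
  rcases eq_or_ne z 0 with rfl | hz
  · rw [ex_zero, norm_mul, Complex.norm_I, one_mul, Complex.norm_real, Real.norm_of_nonneg h0]
    linarith
  · rcases le_total 1 ‖z‖ with h | h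
    · rw [ex_of_ne lam hz, norm_div]
      have h2 : ‖cexp (I * lam * z) - 1‖ ≤ Real.exp (lam * max 0 (-z.im)) + 1 := by
        refine (norm_sub_le _ _).trans ?_
        rw [norm_one, norm_exp_I]
        have : Real.exp (-(lam * z.im)) ≤ Real.exp (lam * max 0 (-z.im)) := by
          apply Real.exp_le_exp.2
          rw [← mul_neg]
          exact mul_le_mul_of_nonneg_left (le_max_right _ _) h0
        linarith
      calc ‖cexp (I * lam * z) - 1‖ / ‖z‖ ≤ ‖cexp (I * lam * z) - 1‖ := div_le_self (norm_nonneg _) h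
        _ ≤ _ := by linarith
    · rw [ex_of_ne lam hz, norm_div]
      have hz0 : 0 < ‖z‖ := norm_pos_iff.mpr hz
      rw [div_le_iff₀ hz0]
      have h2 := Complex.norm_exp_sub_one_le (x := I * lam * z) (by
        rw [norm_mul, norm_mul, Complex.norm_I, one_mul, Complex.norm_real, Real.norm_of_nonneg h0]
        exact mul_le_one₀ h1 hz0.le h)
      rw [norm_mul, norm_mul, Complex.norm_I, one_mul, Complex.norm_real,
        Real.norm_of_nonneg h0] at h2
      refine h2.trans ?_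
      nlinarith

/-- the entire function whose values on the critical line are close to `|ζ|²` -/
def Pz (lam : ℝ) (s : ℂ) : ℂ := -((Z1 s * ex lam (s - 1)) * (Z1 (1 - s) * ex lam s))

theorem Pz_diff (lam : ℝ) : Differentiable ℂ (Pz lam) := by
  have h1 := Z1_differentiable
  have h2 := ex_diff lam
  unfold Pz
  fun_prop

theorem Pz_eq (lam : ℝ) {s : ℂ} (h1 : s ≠ 1) (h0 : s ≠ 0) :
    Pz lam s = riemannZeta s * riemannZeta (1 - s) *
      ((cexp (I * lam * (s - 1)) - 1) * (cexp (I * lam * s) - 1)) := by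
  have h2 : 1 - s ≠ 1 := by
    intro h
    apply h0
    linear_combination -h
  rw [Pz, Z1_of_ne h1, Z1_of_ne h2, ← ex_mul, ← ex_mul]
  ring

/-- `Pz` to the power `k` times a Gaussian -/
def Ps (k : ℕ) (lam T U : ℝ) (s : ℂ) : ℂ :=
  Pz lam s ^ k * cexp ((s - 1 / 2 - T * I) ^ 2 / (U : ℂ) ^ 2)

theorem Ps_diff (k : ℕ) (lam T U : ℝ) : Differentiable ℂ (Ps k lam T U) := by
  have h1 := Pz_diff lam
  unfold Ps
  fun_prop

theorem gauss_norm (T U x y : ℝ) :
    ‖cexp ((((x : ℂ) + y * I) - 1 / 2 - T * I) ^ 2 / (U : ℂ) ^ 2)‖ =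
      Real.exp (((x - 1 / 2) ^ 2 - (y - T) ^ 2) / U ^ 2) := by
  rw [Complex.norm_exp]
  congr 1
  have e : (((x : ℂ) + y * I) - 1 / 2 - T * I) ^ 2 / (U : ℂ) ^ 2 =
      ((((x - 1 / 2) ^ 2 - (y - T) ^ 2) / U ^ 2 : ℝ) : ℂ) +
        ((2 * (x - 1 / 2) * (y - T) / U ^ 2 : ℝ) : ℂ) * I := by
    push_cast
    have hI := Complex.I_sq
    have e2 : ((x : ℂ) + y * I - 1 / 2 - T * I) ^ 2 = ((x : ℂ) - 1 / 2) ^ 2 - ((y : ℂ) - T) ^ 2 +
        2 * ((x : ℂ) - 1 / 2) * ((y : ℂ) - T) * I := by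
      linear_combination ((y : ℂ) - T) ^ 2 * hI
    rw [e2]
    ring
  rw [e, Complex.add_re, Complex.ofReal_re, Complex.re_ofReal_mul, Complex.I_re]
  ring

/-- bounds for `Pz` on a vertical line from bounds for `Z1` -/
theorem Pz_line {lam : ℝ} (h0 : 0 ≤ lam) (h1 : lam ≤ 1) {x C₁ C₂ : ℝ} {m₁ m₂ : ℕ} (hC₁ : 0 < C₁)
    (hC₂ : 0 < C₂) (hb1 : ∀ y : ℝ, ‖Z1 (x + y * I)‖ ≤ C₁ * (1 + |y|) ^ m₁)
    (hb2 : ∀ y : ℝ, ‖Z1 (((1 - x : ℝ) : ℂ) + y * I)‖ ≤ C₂ * (1 + |y|) ^ m₂) (y : ℝ) :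
    ‖Pz lam (x + y * I)‖ ≤ 9 * C₁ * C₂ * (1 + |y|) ^ (m₁ + m₂) * Real.exp (2 * lam * max 0 (-y)) := by
  have e1 : 1 - ((x : ℂ) + y * I) = ((1 - x : ℝ) : ℂ) + ((-y : ℝ) : ℂ) * I := by
    push_cast; ring
  have a1 := hb1 y
  have a2 := hb2 (-y)
  rw [abs_neg] at a2
  have a3 := ex_bd h0 h1 ((x : ℂ) + y * I - 1)
  have a4 := ex_bd h0 h1 ((x : ℂ) + y * I)
  have e3 : ((x : ℂ) + y * I - 1).im = y := by simp
  have e4 : ((x : ℂ) + y * I).im = y := by simp
  rw [e3] at a3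
  rw [e4] at a4
  rw [Pz, norm_neg, norm_mul, norm_mul, norm_mul, e1]
  set E := Real.exp (lam * max 0 (-y)) with hE
  have e5 : Real.exp (2 * lam * max 0 (-y)) = E * E := by
    rw [hE, ← Real.exp_add]; congr 1; ring
  rw [e5]
  calc ‖Z1 (x + y * I)‖ * ‖ex lam (x + y * I - 1)‖ *
        (‖Z1 (((1 - x : ℝ) : ℂ) + ((-y : ℝ) : ℂ) * I)‖ * ‖ex lam (x + y * I)‖)
      ≤ (C₁ * (1 + |y|) ^ m₁) * (3 * E) * ((C₂ * (1 + |y|) ^ m₂) * (3 * E)) := by gcongr
    _ = _ := by rw [pow_add]; ring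

/-- the competition of the exponential with the window -/
theorem compete {k : ℕ} (hk : 1 ≤ k) {T U : ℝ} (hA : Adm T U) (y : ℝ) :
    (2 * (Real.log T ^ 2 / (2 * k * T)) * max 0 (-y)) * k - (y - T) ^ 2 / U ^ 2 ≤
      -(((y - T) / U) ^ 2 / 2) := by
  have hT0 : 0 < T := by linarith [hA.1]
  have hL := hA.log
  have hU := hA.pos
  have hk0 : (0 : ℝ) < k := by exact_mod_cast hk
  have e1 : (2 * (Real.log T ^ 2 / (2 * k * T)) * max 0 (-y)) * k =
      Real.log T ^ 2 / T * max 0 (-y) := by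
    field_simp
  rw [e1, div_pow]
  rcases le_total 0 y with h | h
  · rw [max_eq_left (by linarith)]
    have : 0 ≤ (y - T) ^ 2 / U ^ 2 := by positivity
    linarith
  · rw [max_eq_right (by linarith)]
    have h2 : Real.log T ^ 2 / T ^ 2 ≤ 1 / U ^ 2 := by
      have h3 : U * Real.log T ≤ T := by
        have := hA.2.2
        rwa [le_div_iff₀ (by linarith)] at this
      rw [div_le_div_iff₀ (by positivity) (by positivity)]
      have := pow_le_pow_left₀ (by positivity) h3 2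
      nlinarith
    have h3 : 4 * (-y) * T ≤ (y - T) ^ 2 := by nlinarith [sq_nonneg (y + T)]
    have h4 : Real.log T ^ 2 / T * (-y) ≤ (y - T) ^ 2 / U ^ 2 / 4 := by
      calc Real.log T ^ 2 / T * (-y) = (Real.log T ^ 2 / T ^ 2) * (4 * (-y) * T) / 4 := by
            field_simp
        _ ≤ (1 / U ^ 2) * ((y - T) ^ 2) / 4 := by
            have : 0 ≤ 4 * (-y) * T := by
              have : 0 ≤ -y := by linarith
              positivity
            gcongr
        _ = _ := by ring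
    have h5 : 0 ≤ (y - T) ^ 2 / U ^ 2 := by positivity
    linarith

/-- the parameter -/
def lm (k : ℕ) (T : ℝ) : ℝ := Real.log T ^ 2 / (2 * k * T)

theorem lm_nonneg (k : ℕ) {T : ℝ} (hT : 0 < T) : 0 ≤ lm k T := by
  unfold lm; positivity

theorem lm_le_one {k : ℕ} (hk : 1 ≤ k) {T : ℝ} (hT : 1 ≤ T) : lm k T ≤ 1 := by
  have hk0 : (1 : ℝ) ≤ k := by exact_mod_cast hk
  have hT0 : 0 < T := by linarith
  unfold lm
  rw [div_le_one (by positivity)]
  have h1 : Real.log T ^ 2 ≤ 2 * T := by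
    have h2 := Real.quadratic_le_exp_of_nonneg (Real.log_nonneg hT)
    rw [Real.exp_log hT0] at h2
    nlinarith [Real.log_nonneg hT]
  nlinarith

/-- bounds for `Ps` on a vertical line -/
theorem Ps_line {k : ℕ} (hk : 1 ≤ k) {x C : ℝ} {m : ℕ} (hC : 0 < C)
    (hb : ∀ lam : ℝ, 0 ≤ lam → lam ≤ 1 → ∀ y : ℝ,
      ‖Pz lam (x + y * I)‖ ≤ C * (1 + |y|) ^ m * Real.exp (2 * lam * max 0 (-y)))
    {T U : ℝ} (hA : Adm T U) (y : ℝ) :
    ‖Ps k (lm k T) T U (x + y * I)‖ ≤ C ^ k * Real.exp ((x - 1 / 2) ^ 2) * (1 + |y|) ^ (m * k) *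
      Real.exp (-(((y - T) / U) ^ 2 / 2)) := by
  have hT0 : 0 < T := by linarith [hA.1]
  have hU := hA.pos
  have hU1 := hA.2.1
  have h1 := hb (lm k T) (lm_nonneg k hT0) (lm_le_one hk (by linarith [hA.1])) y
  rw [Ps, norm_mul, norm_pow, gauss_norm]
  have h2 : ‖Pz (lm k T) (x + y * I)‖ ^ k ≤ C ^ k * (1 + |y|) ^ (m * k) *
      Real.exp ((2 * lm k T * max 0 (-y)) * k) := by
    calc ‖Pz (lm k T) (x + y * I)‖ ^ k ≤
        (C * (1 + |y|) ^ m * Real.exp (2 * lm k T * max 0 (-y))) ^ k :=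
          pow_le_pow_left₀ (norm_nonneg _) h1 k
      _ = _ := by
          rw [mul_pow, mul_pow, ← pow_mul, ← Real.exp_nat_mul]
          congr 2
          ring
  have h3 : Real.exp (((x - 1 / 2) ^ 2 - (y - T) ^ 2) / U ^ 2) ≤
      Real.exp ((x - 1 / 2) ^ 2) * Real.exp (-((y - T) ^ 2 / U ^ 2)) := by
    rw [← Real.exp_add]
    apply Real.exp_le_exp.2
    rw [sub_div]
    have : (x - 1 / 2) ^ 2 / U ^ 2 ≤ (x - 1 / 2) ^ 2 := div_le_self (sq_nonneg _) (by nlinarith)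
    linarith
  have h4 := compete hk hA y
  have h5 : Real.exp ((2 * lm k T * max 0 (-y)) * k) * Real.exp (-((y - T) ^ 2 / U ^ 2)) ≤
      Real.exp (-(((y - T) / U) ^ 2 / 2)) := by
    rw [← Real.exp_add]
    apply Real.exp_le_exp.2
    unfold lm
    linarith
  calc ‖Pz (lm k T) (x + y * I)‖ ^ k * Real.exp (((x - 1 / 2) ^ 2 - (y - T) ^ 2) / U ^ 2)
      ≤ (C ^ k * (1 + |y|) ^ (m * k) * Real.exp ((2 * lm k T * max 0 (-y)) * k)) *
          (Real.exp ((x - 1 / 2) ^ 2) * Real.exp (-((y - T) ^ 2 / U ^ 2))) := by gcongr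
    _ = C ^ k * Real.exp ((x - 1 / 2) ^ 2) * (1 + |y|) ^ (m * k) *
          (Real.exp ((2 * lm k T * max 0 (-y)) * k) * Real.exp (-((y - T) ^ 2 / U ^ 2))) := by ring
    _ ≤ _ := by gcongr

end

end Q97.QQ
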