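import Pool.Agent.Q97.QQ.Exq

set_option autoImplicit false

open MeasureTheory Filter Topology Complex Set
open scoped ENNReal

namespace Q97.QQ

open Q97.MM Q97.BS

noncomputable section

/-- the unit window as an extended nonnegative function -/
def gw (u t : ℝ) : ℝ≥0∞ := ENNReal.ofReal (wt u 1 t)

theorem wt_one (u t : ℝ) : wt u 1 t = Real.exp (-(u - t) ^ 2) := by
  unfold wt
  rw [div_one]
  congr 1
  ring

theorem gw_meas2 : Measurable (fun p : ℝ × ℝ => gw p.1 p.2) := by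
  unfold gw
  simp only [wt_one]
  fun_prop

theorem gw_meas (u : ℝ) : Measurable (gw u) := by
  unfold gw
  simp only [wt_one]
  fun_prop

theorem gw_meas' (t : ℝ) : Measurable (fun u => gw u t) := by
  unfold gw
  simp only [wt_one]
  fun_prop

theorem gw_total (t : ℝ) : ∫⁻ u, gw u t = ENNReal.ofReal √Real.pi := by
  have h1 : Integrable (fun x : ℝ => Real.exp (-(1 : ℝ) * x ^ 2)) := integrable_exp_neg_mul_sq one_pos
  have h2 := integral_gaussian 1
  rw [div_one] at h2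
  have e : ∀ u : ℝ, gw u t = ENNReal.ofReal (Real.exp (-(1 : ℝ) * (u - t) ^ 2)) := by
    intro u
    rw [gw, wt_one, neg_one_mul]
  simp_rw [e]
  rw [lintegral_sub_right_eq_self (fun x : ℝ => ENNReal.ofReal (Real.exp (-(1 : ℝ) * x ^ 2))) t,
    ← ofReal_integral_eq_lintegral_ofReal h1 (Eventually.of_forall fun x => (Real.exp_pos _).le), h2]

theorem gw_total' (u : ℝ) : ∫⁻ t, gw u t = ENNReal.ofReal √Real.pi := by
  rw [← gw_total u]
  refine lintegral_congr fun t => ?_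
  rw [gw, gw, wt_one, wt_one]
  congr 3
  ring

theorem gw_right {a t : ℝ} (h : t ≤ a) :
    ∫⁻ u in Ioi a, gw u t ≤ ENNReal.ofReal √Real.pi * gw a t := by
  calc ∫⁻ u in Ioi a, gw u t ≤ ∫⁻ u in Ioi a, gw a t * gw u a := by
        refine setLIntegral_mono ((gw_meas' a).const_mul _) fun u hu => ?_
        rw [mem_Ioi] at hu
        rw [gw, gw, gw, ← ENNReal.ofReal_mul (wt_pos _ _ _).le]
        apply ENNReal.ofReal_le_ofReal
        rw [wt_one, wt_one, wt_one, ← Real.exp_add]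
        apply Real.exp_le_exp.2
        nlinarith [mul_nonneg (sub_nonneg.2 h) (sub_nonneg.2 hu.le)]
    _ = gw a t * ∫⁻ u in Ioi a, gw u a := lintegral_const_mul _ (gw_meas' a)
    _ ≤ gw a t * ENNReal.ofReal √Real.pi := by
        gcongr
        rw [← gw_total a]
        exact setLIntegral_le_lintegral _ _
    _ = _ := mul_comm _ _

theorem gw_left {a t : ℝ} (h : a ≤ t) :
    ∫⁻ u in Iic a, gw u t ≤ ENNReal.ofReal √Real.pi * gw a t := by
  calc ∫⁻ u in Iic a, gw u t ≤ ∫⁻ u in Iic a, gw a t * gw u a := by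
        refine setLIntegral_mono ((gw_meas' a).const_mul _) fun u hu => ?_
        rw [mem_Iic] at hu
        rw [gw, gw, gw, ← ENNReal.ofReal_mul (wt_pos _ _ _).le]
        apply ENNReal.ofReal_le_ofReal
        rw [wt_one, wt_one, wt_one, ← Real.exp_add]
        apply Real.exp_le_exp.2
        nlinarith [mul_nonneg (sub_nonneg.2 h) (sub_nonneg.2 hu)]
    _ = gw a t * ∫⁻ u in Iic a, gw u a := lintegral_const_mul _ (gw_meas' a)
    _ ≤ gw a t * ENNReal.ofReal √Real.pi := by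
        gcongr
        rw [← gw_total a]
        exact setLIntegral_le_lintegral _ _
    _ = _ := mul_comm _ _

theorem G_lower {T₀ T : ℝ} (hT : T₀ ≤ T) (t : ℝ) :
    ENNReal.ofReal √Real.pi * (Ioc T₀ T).indicator (fun _ => (1 : ℝ≥0∞)) t ≤
      (∫⁻ u in Ioc T₀ T, gw u t) + ENNReal.ofReal √Real.pi * (gw T t + gw T₀ t) := by
  by_cases ht : t ∈ Ioc T₀ T
  · rw [indicator_of_mem ht, mul_one]
    have e1 : ∫⁻ u, gw u t = (∫⁻ u in Iic T₀, gw u t) + ∫⁻ u in Ioi T₀, gw u t := by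
      rw [← compl_Iic, lintegral_add_compl _ measurableSet_Iic]
    have e2 : ∫⁻ u in Ioi T₀, gw u t = (∫⁻ u in Ioc T₀ T, gw u t) + ∫⁻ u in Ioi T, gw u t := by
      rw [← Ioc_union_Ioi_eq_Ioi hT]
      exact lintegral_union measurableSet_Ioi (Set.Ioc_disjoint_Ioi le_rfl)
    have b1 := gw_left ht.1.le
    have b2 := gw_right ht.2
    have hW0 := gw_total t
    calc ENNReal.ofReal √Real.pi = (∫⁻ u in Iic T₀, gw u t) + ((∫⁻ u in Ioc T₀ T, gw u t) +
          ∫⁻ u in Ioi T, gw u t) := by rw [← hW0, e1, e2]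
      _ ≤ ENNReal.ofReal √Real.pi * gw T₀ t + ((∫⁻ u in Ioc T₀ T, gw u t) +
          ENNReal.ofReal √Real.pi * gw T t) := by gcongr
      _ = _ := by ring
  · rw [indicator_of_notMem ht, mul_zero]
    exact zero_le

theorem G_upper {T₀ T : ℝ} (t : ℝ) :
    (∫⁻ u in Ioc T₀ T, gw u t) ≤
      ENNReal.ofReal √Real.pi * (Ioc T₀ T).indicator (fun _ => (1 : ℝ≥0∞)) t +
        ENNReal.ofReal √Real.pi * (gw T t + gw T₀ t) := by
  by_cases ht : t ∈ Ioc T₀ T
  · rw [indicator_of_mem ht, mul_one]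
    refine le_trans ?_ le_self_add
    rw [← gw_total t]
    exact setLIntegral_le_lintegral _ _
  · rw [indicator_of_notMem ht, mul_zero, zero_add, mul_add]
    rw [mem_Ioc, not_and_or, not_lt, not_le] at ht
    rcases ht with ht | ht
    · refine le_trans ?_ le_add_self
      refine le_trans (lintegral_mono_set Ioc_subset_Ioi_self) (gw_right ht)
    · refine le_trans ?_ le_self_add
      refine le_trans (lintegral_mono_set Ioc_subset_Iic_self) (gw_left ht.le)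

theorem inv_sq_int {T₀ T : ℝ} (h0 : 1 ≤ T₀) :
    ∫⁻ u in Ioc T₀ T, ENNReal.ofReal (1 / u ^ 2) ≤ ENNReal.ofReal (2 * Real.pi) := by
  calc ∫⁻ u in Ioc T₀ T, ENNReal.ofReal (1 / u ^ 2) ≤ ∫⁻ u in Ioc T₀ T, ENNReal.ofReal (2 * cau u) := by
        have hm : Measurable (fun u => ENNReal.ofReal (2 * cau u)) :=
          (cau_cont.const_mul 2).measurable.ennreal_ofReal
        refine setLIntegral_mono hm fun u hu => ?_
        apply ENNReal.ofReal_le_ofReal
        have hu1 : 1 ≤ u := h0.trans hu.1.le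
        unfold cau
        rw [mul_one_div, div_le_div_iff₀ (by positivity) (by positivity)]
        nlinarith
    _ ≤ ∫⁻ u, ENNReal.ofReal (2 * cau u) := setLIntegral_le_lintegral _ _
    _ = ENNReal.ofReal (2 * Real.pi) := by
        rw [← ofReal_integral_eq_lintegral_ofReal (cau_int.1.const_mul 2)
          (Eventually.of_forall fun x => mul_nonneg zero_le_two (cau_pos x).le), integral_const_mul,
          cau_int.2]

/-- From smooth windows to a sharp cut-off, for two measures. -/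
theorem sharp {μ ν : Measure ℝ} [SFinite μ] [SFinite ν] {T₀ T : ℝ} (h0 : 1 ≤ T₀) (hT : T₀ ≤ T)
    (h : ∀ u : ℝ, T₀ ≤ u → u ≤ T → ∫⁻ t, gw u t ∂μ ≤ ∫⁻ t, gw u t ∂ν + ENNReal.ofReal (1 / u ^ 2)) :
    μ (Ioc T₀ T) ≤ ν (Ioc T₀ T) + (∫⁻ t, gw T t ∂μ + ∫⁻ t, gw T₀ t ∂μ) +
      (∫⁻ t, gw T t ∂ν + ∫⁻ t, gw T₀ t ∂ν) + ENNReal.ofReal (2 * Real.pi) := by
  set c : ℝ≥0∞ := ENNReal.ofReal √Real.pi with hc
  have hc1 : 1 ≤ c := by
    rw [hc, ← ENNReal.ofReal_one]
    apply ENNReal.ofReal_le_ofReal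
    rw [Real.one_le_sqrt]
    linarith [Real.pi_gt_three]
  have hc0 : c ≠ 0 := (zero_lt_one.trans_le hc1).ne'
  have hct : c ≠ ∞ := ENNReal.ofReal_ne_top
  have hI : ∀ ρ : Measure ℝ, ∫⁻ t, c * (Ioc T₀ T).indicator (fun _ => (1 : ℝ≥0∞)) t ∂ρ =
      c * ρ (Ioc T₀ T) := by
    intro ρ
    rw [lintegral_const_mul _ (measurable_const.indicator measurableSet_Ioc),
      lintegral_indicator measurableSet_Ioc, lintegral_const, one_mul,
      Measure.restrict_apply_univ]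
  have hW : ∀ ρ : Measure ℝ, ∫⁻ t, c * (gw T t + gw T₀ t) ∂ρ =
      c * (∫⁻ t, gw T t ∂ρ + ∫⁻ t, gw T₀ t ∂ρ) := by
    intro ρ
    rw [lintegral_const_mul c (f := fun t => gw T t + gw T₀ t) ((gw_meas T).add (gw_meas T₀)),
      lintegral_add_left (gw_meas T)]
  have hsw : ∀ ρ : Measure ℝ, SFinite ρ → ∫⁻ t, (∫⁻ u in Ioc T₀ T, gw u t) ∂ρ =
      ∫⁻ u in Ioc T₀ T, (∫⁻ t, gw u t ∂ρ) := by
    intro ρ hρ
    exact lintegral_lintegral_swap (gw_meas2.comp measurable_swap).aemeasurable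
  have hGm : Measurable (fun t => ∫⁻ u in Ioc T₀ T, gw u t) :=
    Measurable.lintegral_prod_left gw_meas2
  have s1 : c * μ (Ioc T₀ T) ≤ (∫⁻ u in Ioc T₀ T, (∫⁻ t, gw u t ∂μ)) +
      c * (∫⁻ t, gw T t ∂μ + ∫⁻ t, gw T₀ t ∂μ) := by
    rw [← hI, ← hW, ← hsw μ inferInstance, ← lintegral_add_left hGm]
    exact lintegral_mono fun t => G_lower hT t
  have s2 : (∫⁻ u in Ioc T₀ T, (∫⁻ t, gw u t ∂μ)) ≤ (∫⁻ u in Ioc T₀ T, (∫⁻ t, gw u t ∂ν)) +
      ENNReal.ofReal (2 * Real.pi) := by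
    have hm : Measurable (fun u : ℝ => ENNReal.ofReal (1 / u ^ 2)) := by fun_prop
    calc (∫⁻ u in Ioc T₀ T, (∫⁻ t, gw u t ∂μ)) ≤
          ∫⁻ u in Ioc T₀ T, ((∫⁻ t, gw u t ∂ν) + ENNReal.ofReal (1 / u ^ 2)) := by
          refine setLIntegral_mono' measurableSet_Ioc fun u hu => ?_
          exact h u hu.1.le hu.2
      _ = (∫⁻ u in Ioc T₀ T, (∫⁻ t, gw u t ∂ν)) + ∫⁻ u in Ioc T₀ T, ENNReal.ofReal (1 / u ^ 2) :=
          lintegral_add_right _ hm
      _ ≤ _ := by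
          gcongr
          exact inv_sq_int h0
  have s3 : (∫⁻ u in Ioc T₀ T, (∫⁻ t, gw u t ∂ν)) ≤ c * ν (Ioc T₀ T) +
      c * (∫⁻ t, gw T t ∂ν + ∫⁻ t, gw T₀ t ∂ν) := by
    rw [← hI, ← hW, ← hsw ν inferInstance, ← lintegral_add_left
      ((measurable_const.indicator measurableSet_Ioc).const_mul c)]
    exact lintegral_mono fun t => G_upper t
  have s4 : c * μ (Ioc T₀ T) ≤ c * (ν (Ioc T₀ T) + (∫⁻ t, gw T t ∂μ + ∫⁻ t, gw T₀ t ∂μ) +
      (∫⁻ t, gw T t ∂ν + ∫⁻ t, gw T₀ t ∂ν) + ENNReal.ofReal (2 * Real.pi)) := by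
    refine s1.trans ?_
    calc (∫⁻ u in Ioc T₀ T, (∫⁻ t, gw u t ∂μ)) + c * (∫⁻ t, gw T t ∂μ + ∫⁻ t, gw T₀ t ∂μ)
        ≤ (c * ν (Ioc T₀ T) + c * (∫⁻ t, gw T t ∂ν + ∫⁻ t, gw T₀ t ∂ν) +
            c * ENNReal.ofReal (2 * Real.pi)) + c * (∫⁻ t, gw T t ∂μ + ∫⁻ t, gw T₀ t ∂μ) := by
          gcongr
          refine s2.trans ?_
          gcongr
          calc ENNReal.ofReal (2 * Real.pi) = 1 * ENNReal.ofReal (2 * Real.pi) := (one_mul _).symm
            _ ≤ _ := by gcongr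
      _ = _ := by ring
  exact (ENNReal.mul_le_mul_iff_right hc0 hct).mp s4

end

end Q97.QQ
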