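import Pool.Agent.Q97.QQ.Ent

set_option autoImplicit false

open MeasureTheory Filter Topology Complex Set FourierTransform

namespace Q97.QQ

open Q97.MM Q97.BS

noncomputable section

/-- Poisson summation for functions with Gaussian decay. -/
theorem poisson {g : ℝ → ℂ} {M δ : ℝ} (hc : Continuous g) (hM : 0 ≤ M) (hδ : 0 < δ)
    (hb : ∀ y : ℝ, ‖g y‖ ≤ M * Real.exp (-δ * y ^ 2)) {h : ℝ} (hh : 0 < h) (θ : ℝ)
    (hs : Summable (fun m : ℤ => 𝓕 g (m / h))) :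
    (h : ℂ) * ∑' n : ℤ, g (θ + n * h) = ∑' m : ℤ, ee (θ * (m / h)) * 𝓕 g (m / h) := by
  set f : ℝ → ℂ := fun u => g (θ + u * h) with hf
  have hcf : Continuous f := by fun_prop
  have hdec : f =O[cocompact ℝ] (fun u : ℝ => |u| ^ (-2 : ℝ)) := by
    refine Asymptotics.IsBigO.of_bound (M / δ * (2 / h) ^ 2) ?_
    have h3 : ∀ᶠ u : ℝ in cocompact ℝ, 2 * |θ| / h + 1 ≤ |u| := by
      have h4 := (tendsto_norm_cocompact_atTop (E := ℝ)).eventually
        (eventually_ge_atTop (2 * |θ| / h + 1))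
      simpa using h4
    filter_upwards [h3] with u hu
    have hu0 : 0 < |u| := by
      have : 0 ≤ 2 * |θ| / h := by positivity
      linarith
    rw [Real.norm_of_nonneg (by positivity), Real.rpow_neg hu0.le, Real.rpow_two]
    have h5 : |u| * h / 2 ≤ |θ + u * h| := by
      have h7 : |u * h| ≤ |θ + u * h| + |θ| := by
        calc |u * h| = |(θ + u * h) - θ| := by congr 1; ring
          _ ≤ _ := abs_sub _ _
      rw [abs_mul, abs_of_pos hh] at h7
      have h8 : |θ| ≤ |u| * h / 2 := by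
        have h9 : 2 * |θ| / h ≤ |u| := by linarith
        rw [div_le_iff₀ hh] at h9
        linarith
      linarith
    have h6 : 0 < |u| * h / 2 := by positivity
    have h7 : (|u| * h / 2) ^ 2 ≤ (θ + u * h) ^ 2 := by
      rw [← sq_abs (θ + u * h)]
      exact pow_le_pow_left₀ h6.le h5 2
    have h8 : Real.exp (-δ * (θ + u * h) ^ 2) ≤ 1 / (δ * (|u| * h / 2) ^ 2) := by
      have h9 : δ * (|u| * h / 2) ^ 2 ≤ Real.exp (δ * (θ + u * h) ^ 2) := by
        have := Real.add_one_le_exp (δ * (θ + u * h) ^ 2)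
        nlinarith
      have e : -δ * (θ + u * h) ^ 2 = -(δ * (θ + u * h) ^ 2) := by ring
      rw [e, Real.exp_neg, ← one_div]
      exact one_div_le_one_div_of_le (by positivity) h9
    calc ‖f u‖ ≤ M * Real.exp (-δ * (θ + u * h) ^ 2) := hb _
      _ ≤ M * (1 / (δ * (|u| * h / 2) ^ 2)) := by gcongr
      _ = M / δ * (2 / h) ^ 2 * (|u| ^ 2)⁻¹ := by
          field_simp
  have hF : ∀ ν : ℝ, 𝓕 f ν = ((1 / h : ℝ) : ℂ) * (ee (θ * (ν / h)) * 𝓕 g (ν / h)) := by
    intro ν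
    rw [fourier_ee, fourier_ee]
    have e1 : ∀ u : ℝ, ee (-(u * ν)) * f u = ee (θ * (ν / h)) *
        (fun v => ee (-(v * (ν / h))) * g v) (θ + u * h) := by
      intro u
      simp only [hf]
      have e2 : ee (-(u * ν)) = ee (θ * (ν / h)) * ee (-((θ + u * h) * (ν / h))) := by
        rw [← ee_add]
        congr 1
        field_simp
        ring
      rw [e2]
      ring
    rw [integral_congr_ae (Eventually.of_forall e1), integral_const_mul]
    have e3 : ∫ u : ℝ, (fun v => ee (-(v * (ν / h))) * g v) (θ + u * h) =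
        ((1 / h : ℝ) : ℂ) * ∫ v, ee (-(v * (ν / h))) * g v := by
      have e4 := Measure.integral_comp_mul_right
        (fun w : ℝ => (fun v => ee (-(v * (ν / h))) * g v) (θ + w)) h
      rw [e4, integral_add_left_eq_self (fun v => ee (-(v * (ν / h))) * g v) θ,
        abs_of_pos (inv_pos.mpr hh), one_div, Complex.real_smul]
    rw [e3]
    ring
  have hsum : Summable (fun m : ℤ => 𝓕 f m) := by
    have h1 : (fun m : ℤ => 𝓕 f m) = fun m : ℤ =>
        ((1 / h : ℝ) : ℂ) * (ee (θ * (m / h)) * 𝓕 g (m / h)) := by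
      funext m
      rw [hF]
    rw [h1]
    apply Summable.mul_left
    refine Summable.of_norm_bounded hs.norm (fun m => ?_)
    rw [norm_mul, ee_norm, one_mul]
  have hP := Real.tsum_eq_tsum_fourier_of_rpow_decay_of_summable hcf (by norm_num : (1 : ℝ) < 2)
    hdec hsum 0
  simp only [zero_add] at hP
  have e6 : ∑' n : ℤ, g (θ + n * h) = ∑' n : ℤ, f n := rfl
  have e7 : ∀ m : ℤ, 𝓕 f m * fourier m (((0 : ℝ)) : UnitAddCircle) =
      ((1 / h : ℝ) : ℂ) * (ee (θ * (m / h)) * 𝓕 g (m / h)) := by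
    intro m
    rw [hF]
    simp
  rw [e6, hP, tsum_congr e7, tsum_mul_left, ← mul_assoc]
  have : (h : ℂ) * ((1 / h : ℝ) : ℂ) = 1 := by
    rw [← Complex.ofReal_mul, mul_one_div_cancel hh.ne', Complex.ofReal_one]
  rw [this, one_mul]

theorem nat_exp (n : ℕ) (hn : 1 ≤ n) {c : ℝ} (hc : 1 ≤ c) :
    Real.exp (-(c * n)) ≤ 2 * Real.exp (-c) * (1 / (n : ℝ) ^ 2) := by
  have hn' : (1 : ℝ) ≤ n := by exact_mod_cast hn
  have h1 : (n : ℝ) ^ 2 ≤ 2 * Real.exp (c * (n - 1)) := by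
    have h2 := Real.quadratic_le_exp_of_nonneg (show (0 : ℝ) ≤ (n : ℝ) - 1 by linarith)
    have h3 : Real.exp ((n : ℝ) - 1) ≤ Real.exp (c * (n - 1)) := by
      apply Real.exp_le_exp.2
      nlinarith
    nlinarith
  have e : Real.exp (-(c * n)) = Real.exp (-c) * (Real.exp (c * (n - 1)))⁻¹ := by
    rw [← Real.exp_neg, ← Real.exp_add]
    congr 1
    ring
  rw [e]
  have h4 : (Real.exp (c * (n - 1)))⁻¹ ≤ 2 * (1 / (n : ℝ) ^ 2) := by
    rw [inv_le_comm₀ (Real.exp_pos _) (by positivity)]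
    have e2 : (2 * (1 / (n : ℝ) ^ 2))⁻¹ = (n : ℝ) ^ 2 / 2 := by
      field_simp
    rw [e2]
    linarith
  calc Real.exp (-c) * (Real.exp (c * (n - 1)))⁻¹ ≤ Real.exp (-c) * (2 * (1 / (n : ℝ) ^ 2)) := by
        gcongr
    _ = _ := by ring

/-- the aliasing terms -/
theorem alias_bd : ∃ S : ℝ, 0 < S ∧ ∀ (g : ℝ → ℂ) (M δ : ℝ), Continuous g → 0 ≤ M → 0 < δ →
    (∀ y : ℝ, ‖g y‖ ≤ M * Real.exp (-δ * y ^ 2)) → ∀ K c : ℝ, 0 ≤ K → 1 ≤ c →
    ∀ h : ℝ, 0 < h → (∀ m : ℤ, ‖𝓕 g (m / h)‖ ≤ K * Real.exp (-(c * |(m : ℝ)|))) → ∀ θ : ℝ,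
      ‖(h : ℂ) * ∑' n : ℤ, g (θ + n * h) - ∫ y, g y‖ ≤ S * K * Real.exp (-c) := by
  have hs : Summable (fun m : ℤ => 1 / (m : ℝ) ^ 2) := Real.summable_one_div_int_pow.mpr (by norm_num)
  set S₀ := ∑' m : ℤ, 1 / (m : ℝ) ^ 2 with hS₀
  have hS0 : 0 ≤ S₀ := tsum_nonneg fun m => by positivity
  refine ⟨2 * (S₀ + 1), by positivity, fun g M δ hc hM hδ hb K c hK hc1 h hh hF θ => ?_⟩
  have hbd : ∀ m : ℤ, m ≠ 0 → ‖𝓕 g (m / h)‖ ≤ (2 * K * Real.exp (-c)) * (1 / (m : ℝ) ^ 2) := by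
    intro m hm
    refine (hF m).trans ?_
    have h1 : 1 ≤ m.natAbs := Int.natAbs_pos.mpr hm
    have h2 := nat_exp m.natAbs h1 hc1
    have h3 : ((m.natAbs : ℕ) : ℝ) = |(m : ℝ)| := by
      rw [Nat.cast_natAbs, Int.cast_abs]
    rw [h3, sq_abs] at h2
    calc K * Real.exp (-(c * |(m : ℝ)|)) ≤ K * (2 * Real.exp (-c) * (1 / (m : ℝ) ^ 2)) := by gcongr
      _ = _ := by ring
  have hsumF : Summable (fun m : ℤ => 𝓕 g (m / h)) := by
    refine Summable.of_norm_bounded_eventually (hs.mul_left (2 * K * Real.exp (-c))) ?_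
    have : ∀ᶠ m : ℤ in cofinite, m ≠ 0 := by
      have := (Set.finite_singleton (0 : ℤ)).eventually_cofinite_notMem
      filter_upwards [this] with m hm
      simpa using hm
    filter_upwards [this] with m hm
    exact hbd m hm
  have hP := poisson hc hM hδ hb hh θ hsumF
  have hsumE : Summable (fun m : ℤ => ee (θ * (m / h)) * 𝓕 g (m / h)) := by
    refine Summable.of_norm_bounded hsumF.norm (fun m => ?_)
    rw [norm_mul, ee_norm, one_mul]
  rw [hP, hsumE.tsum_eq_add_tsum_ite (0 : ℤ)]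
  have e0 : ee (θ * (((0 : ℤ) : ℝ) / h)) * 𝓕 g (((0 : ℤ) : ℝ) / h) = ∫ y, g y := by
    rw [fourier_ee]
    simp [ee]
  rw [e0, add_sub_cancel_left]
  have hb2 : ∀ m : ℤ, ‖(if m = 0 then (0 : ℂ) else ee (θ * (m / h)) * 𝓕 g (m / h))‖ ≤
      (2 * K * Real.exp (-c)) * (1 / (m : ℝ) ^ 2) := by
    intro m
    split_ifs with hm
    · rw [norm_zero]; positivity
    · rw [norm_mul, ee_norm, one_mul]
      exact hbd m hm
  refine (tsum_of_norm_bounded (hs.mul_left (2 * K * Real.exp (-c))).hasSum hb2).trans ?_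
  rw [tsum_mul_left, ← hS₀]
  have : 0 ≤ K * Real.exp (-c) := by positivity
  nlinarith

end

end Q97.QQ
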