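import Pool.Agent.Q97.QQ.Poi

set_option autoImplicit false

open MeasureTheory Filter Topology Complex Set FourierTransform

namespace Q97.QQ

open Q97.MM Q97.BS

noncomputable section

/-- Gaussian decay in a wide strip -/
theorem Ps_strip {k : ℕ} (hk : 1 ≤ k) (A : ℕ) {T U : ℝ} (hA : Adm T U) : ∃ M δ : ℝ, 0 ≤ M ∧ 0 < δ ∧
    ∀ x y : ℝ, -(A : ℝ) ≤ x → x ≤ A + 1 →
      ‖Ps k (lm k T) T U (x + y * I)‖ ≤ M * Real.exp (-δ * y ^ 2) := by
  obtain ⟨C₁, n, hC₁, h1⟩ := Z1_strip A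
  have hU := hA.pos
  set C := 9 * C₁ * C₁ with hC
  have hC0 : 0 < C := by positivity
  obtain ⟨C₂, hC₂, h2⟩ := poly_le_exp ((n + n) * k) (1 / (8 * U ^ 2)) (by positivity)
  refine ⟨C ^ k * Real.exp ((A + 1) ^ 2) * C₂ * Real.exp (T ^ 2 / (2 * U ^ 2)), 1 / (8 * U ^ 2),
    by positivity, by positivity, fun x y hx1 hx2 => ?_⟩
  have h3 := Ps_line hk (x := x) (C := C) (m := n + n) hC0 (fun lam h0 h1' y =>
    Pz_line h0 h1' hC₁ hC₁ (fun y => h1 x y hx1 hx2)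
      (fun y => h1 (1 - x) y (by linarith) (by linarith)) y) hA y
  refine h3.trans ?_
  have h4 : Real.exp ((x - 1 / 2) ^ 2) ≤ Real.exp (((A : ℝ) + 1) ^ 2) := by
    apply Real.exp_le_exp.2
    have hA0 : (0 : ℝ) ≤ A := Nat.cast_nonneg A
    nlinarith
  have h5 : Real.exp (-(((y - T) / U) ^ 2 / 2)) ≤
      Real.exp (T ^ 2 / (2 * U ^ 2)) * Real.exp (-(1 / (4 * U ^ 2)) * y ^ 2) := by
    rw [← Real.exp_add]
    apply Real.exp_le_exp.2
    have e : T ^ 2 / (2 * U ^ 2) + -(1 / (4 * U ^ 2)) * y ^ 2 - -(((y - T) / U) ^ 2 / 2) =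
        (y - 2 * T) ^ 2 / (4 * U ^ 2) := by
      field_simp
      ring
    have : 0 ≤ (y - 2 * T) ^ 2 / (4 * U ^ 2) := by positivity
    linarith
  have h6 : Real.exp (1 / (8 * U ^ 2) * y ^ 2) * Real.exp (-(1 / (4 * U ^ 2)) * y ^ 2) =
      Real.exp (-(1 / (8 * U ^ 2)) * y ^ 2) := by
    rw [← Real.exp_add]
    congr 1
    field_simp
    ring
  calc C ^ k * Real.exp ((x - 1 / 2) ^ 2) * (1 + |y|) ^ ((n + n) * k) *
        Real.exp (-(((y - T) / U) ^ 2 / 2))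
      ≤ C ^ k * Real.exp (((A : ℝ) + 1) ^ 2) * (C₂ * Real.exp (1 / (8 * U ^ 2) * y ^ 2)) *
        (Real.exp (T ^ 2 / (2 * U ^ 2)) * Real.exp (-(1 / (4 * U ^ 2)) * y ^ 2)) := by
        gcongr
        exact h2 y
    _ = C ^ k * Real.exp (((A : ℝ) + 1) ^ 2) * C₂ * Real.exp (T ^ 2 / (2 * U ^ 2)) *
        (Real.exp (1 / (8 * U ^ 2) * y ^ 2) * Real.exp (-(1 / (4 * U ^ 2)) * y ^ 2)) := by ring
    _ = _ := by rw [h6]

/-- the integral over a line -/
theorem Ps_int {k : ℕ} (hk : 1 ≤ k) {x C : ℝ} {m : ℕ} (hC : 0 < C)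
    (hb : ∀ lam : ℝ, 0 ≤ lam → lam ≤ 1 → ∀ y : ℝ,
      ‖Pz lam (x + y * I)‖ ≤ C * (1 + |y|) ^ m * Real.exp (2 * lam * max 0 (-y))) :
    ∃ K : ℝ, 0 < K ∧ ∀ T U : ℝ, Adm T U →
      ∫ y : ℝ, ‖Ps k (lm k T) T U (x + y * I)‖ ≤ K * T ^ (m * k + 1) := by
  refine ⟨C ^ k * Real.exp ((x - 1 / 2) ^ 2) * 2 ^ (m * k) * (KK (m * k) + 1),
    by have := KK_nonneg (m * k); positivity, fun T U hA => ?_⟩
  have hT0 : 0 < T := by linarith [hA.1]
  have hU := hA.pos
  have hUT := hA.le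
  have hpt : ∀ y : ℝ, ‖Ps k (lm k T) T U (x + y * I)‖ ≤
      (C ^ k * Real.exp ((x - 1 / 2) ^ 2) * (1 + T) ^ (m * k)) *
        ((1 + |(y - T) / U|) ^ (m * k) * Real.exp (-(((y - T) / U) ^ 2 / 2))) := by
    intro y
    refine (Ps_line hk hC hb hA y).trans ?_
    have a2 := abs_le_scaled hU hT0.le hUT y
    have a3 : (1 + |y|) ^ (m * k) ≤ ((1 + T) * (1 + |(y - T) / U|)) ^ (m * k) :=
      pow_le_pow_left₀ (by positivity) a2 _
    rw [mul_pow] at a3
    calc C ^ k * Real.exp ((x - 1 / 2) ^ 2) * (1 + |y|) ^ (m * k) *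
          Real.exp (-(((y - T) / U) ^ 2 / 2))
        ≤ C ^ k * Real.exp ((x - 1 / 2) ^ 2) * ((1 + T) ^ (m * k) * (1 + |(y - T) / U|) ^ (m * k)) *
          Real.exp (-(((y - T) / U) ^ 2 / 2)) := by gcongr
      _ = _ := by ring
  have hi := (scaled_integrable (m * k) T hU).const_mul
    (C ^ k * Real.exp ((x - 1 / 2) ^ 2) * (1 + T) ^ (m * k))
  have h1 := integral_mono_of_nonneg (Eventually.of_forall fun y => norm_nonneg _) hi
      (Eventually.of_forall hpt)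
  rw [integral_const_mul, scaled_integral (m * k) T hU] at h1
  refine h1.trans ?_
  have h2 : (1 + T) ^ (m * k) ≤ (2 * T) ^ (m * k) :=
    pow_le_pow_left₀ (by positivity) (by linarith [hA.1]) _
  rw [mul_pow] at h2
  have hK := KK_nonneg (m * k)
  calc C ^ k * Real.exp ((x - 1 / 2) ^ 2) * (1 + T) ^ (m * k) * (U * KK (m * k))
      ≤ C ^ k * Real.exp ((x - 1 / 2) ^ 2) * (2 ^ (m * k) * T ^ (m * k)) * (T * (KK (m * k) + 1)) := by
        gcongr
        linarith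
    _ = _ := by rw [pow_succ]; ring

/-- the function on the critical line -/
def psi (k : ℕ) (T U y : ℝ) : ℂ := Ps k (lm k T) T U (Q97.BS.pt y)

theorem psi_cont (k : ℕ) (T U : ℝ) : Continuous (psi k T U) :=
  (Ps_diff k (lm k T) T U).continuous.comp pt_cont

/-- Decay of the Fourier transform. -/
theorem psi_fourier {k : ℕ} (hk : 1 ≤ k) (A : ℕ) (hA1 : 1 ≤ A) :
    ∃ K : ℝ, 0 < K ∧ ∀ T U : ℝ, Adm T U → ∀ ν : ℝ,
      ‖𝓕 (psi k T U) ν‖ ≤ K * T ^ ((A + 2) * k + 1) * Real.exp (-(2 * Real.pi * A * |ν|)) := by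
  obtain ⟨C₁, hC₁, h1⟩ := Z1_right A hA1
  obtain ⟨C₂, hC₂, h2⟩ := Z1_left A hA1
  have e1 : (1 - (1 / 2 + A : ℝ)) = 1 / 2 - A := by ring
  have e2 : (1 - (1 / 2 - A : ℝ)) = 1 / 2 + A := by ring
  have hm : 1 + (A + 1) = A + 2 := by ring
  have hm2 : (A + 1) + 1 = A + 2 := by ring
  obtain ⟨K₁, hK₁, k1⟩ := Ps_int hk (x := 1 / 2 + A) (C := 9 * C₁ * C₂) (m := A + 2)
    (by positivity) (fun lam l0 l1 y => by
      have := Pz_line l0 l1 (x := 1 / 2 + A) (m₁ := 1) (m₂ := A + 1) hC₁ hC₂ (by simpa using h1)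
        (by rw [e1]; exact h2) y
      rwa [hm] at this)
  obtain ⟨K₂, hK₂, k2⟩ := Ps_int hk (x := 1 / 2 - A) (C := 9 * C₂ * C₁) (m := A + 2)
    (by positivity) (fun lam l0 l1 y => by
      have := Pz_line l0 l1 (x := 1 / 2 - A) (m₁ := A + 1) (m₂ := 1) hC₂ hC₁ h2
        (by rw [e2]; simpa using h1) y
      rwa [hm2] at this)
  refine ⟨K₁ + K₂, by positivity, fun T U hA ν => ?_⟩
  have hT0 : 0 < T := by linarith [hA.1]
  have hA' : (1 : ℝ) ≤ A := by exact_mod_cast hA1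
  obtain ⟨M, δ, hM, hδ, hbd⟩ := Ps_strip hk A hA
  have hF := Ps_diff k (lm k T) T U
  have hpsi : psi k T U = ln (Ps k (lm k T) T U) (1 / 2) := rfl
  have hfn : ∀ x : ℝ, ‖𝓕 (ln (Ps k (lm k T) T U) x) ν‖ ≤
      ∫ y : ℝ, ‖Ps k (lm k T) T U (x + y * I)‖ := by
    intro x
    rw [fourier_ee]
    refine (norm_integral_le_integral_norm _).trans (le_of_eq ?_)
    refine integral_congr_ae (Eventually.of_forall fun y => ?_)
    simp only
    rw [norm_mul, ee_norm, one_mul]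
    rfl
  rw [hpsi]
  rcases le_total 0 ν with hν | hν
  · rw [abs_of_nonneg hν]
    have h3 := fourier_shift hF hδ hM hbd (x := 1 / 2) (x' := 1 / 2 + A) (by linarith) (by linarith)
      (by linarith) ν
    have h4 := congrArg norm h3
    rw [norm_mul, norm_mul, Complex.norm_real, Complex.norm_real,
      Real.norm_of_nonneg (Real.exp_pos _).le, Real.norm_of_nonneg (Real.exp_pos _).le] at h4
    have h5 : ‖𝓕 (ln (Ps k (lm k T) T U) (1 / 2)) ν‖ =
        Real.exp (-(2 * Real.pi * A * ν)) * ‖𝓕 (ln (Ps k (lm k T) T U) (1 / 2 + A)) ν‖ := by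
      have e1 : Real.exp (-(2 * Real.pi * ν * (1 / 2 + A))) =
          Real.exp (-(2 * Real.pi * ν * (1 / 2))) * Real.exp (-(2 * Real.pi * A * ν)) := by
        rw [← Real.exp_add]; congr 1; ring
      have h4' : Real.exp (-(2 * Real.pi * ν * (1 / 2))) *
          ‖𝓕 (ln (Ps k (lm k T) T U) (1 / 2)) ν‖ =
          Real.exp (-(2 * Real.pi * ν * (1 / 2))) *
            (Real.exp (-(2 * Real.pi * A * ν)) * ‖𝓕 (ln (Ps k (lm k T) T U) (1 / 2 + A)) ν‖) := by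
        rw [h4, e1]; ring
      exact mul_left_cancel₀ (Real.exp_pos _).ne' h4'
    rw [h5]
    have h6 := (hfn (1 / 2 + A)).trans (k1 T U hA)
    calc Real.exp (-(2 * Real.pi * A * ν)) * ‖𝓕 (ln (Ps k (lm k T) T U) (1 / 2 + A)) ν‖
        ≤ Real.exp (-(2 * Real.pi * A * ν)) * (K₁ * T ^ ((A + 2) * k + 1)) := by gcongr
      _ ≤ Real.exp (-(2 * Real.pi * A * ν)) * ((K₁ + K₂) * T ^ ((A + 2) * k + 1)) := by
          gcongr
          linarith
      _ = _ := by ring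
  · rw [abs_of_nonpos hν]
    have h3 := fourier_shift hF hδ hM hbd (x := 1 / 2 - A) (x' := 1 / 2) (by linarith) (by linarith)
      (by linarith) ν
    have h4 := congrArg norm h3
    rw [norm_mul, norm_mul, Complex.norm_real, Complex.norm_real,
      Real.norm_of_nonneg (Real.exp_pos _).le, Real.norm_of_nonneg (Real.exp_pos _).le] at h4
    have h5 : ‖𝓕 (ln (Ps k (lm k T) T U) (1 / 2)) ν‖ =
        Real.exp (2 * Real.pi * A * ν) * ‖𝓕 (ln (Ps k (lm k T) T U) (1 / 2 - A)) ν‖ := by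
      have e1 : Real.exp (-(2 * Real.pi * ν * (1 / 2 - A))) =
          Real.exp (-(2 * Real.pi * ν * (1 / 2))) * Real.exp (2 * Real.pi * A * ν) := by
        rw [← Real.exp_add]; congr 1; ring
      have h4' : Real.exp (-(2 * Real.pi * ν * (1 / 2))) *
          ‖𝓕 (ln (Ps k (lm k T) T U) (1 / 2)) ν‖ =
          Real.exp (-(2 * Real.pi * ν * (1 / 2))) *
            (Real.exp (2 * Real.pi * A * ν) * ‖𝓕 (ln (Ps k (lm k T) T U) (1 / 2 - A)) ν‖) := by
        rw [← h4, e1]; ring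
      exact mul_left_cancel₀ (Real.exp_pos _).ne' h4'
    rw [h5]
    have h6 := (hfn (1 / 2 - A)).trans (k2 T U hA)
    have e3 : -(2 * Real.pi * A * -ν) = 2 * Real.pi * A * ν := by ring
    rw [e3]
    calc Real.exp (2 * Real.pi * A * ν) * ‖𝓕 (ln (Ps k (lm k T) T U) (1 / 2 - A)) ν‖
        ≤ Real.exp (2 * Real.pi * A * ν) * (K₂ * T ^ ((A + 2) * k + 1)) := by gcongr
      _ ≤ Real.exp (2 * Real.pi * A * ν) * ((K₁ + K₂) * T ^ ((A + 2) * k + 1)) := by
          gcongr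
          linarith
      _ = _ := by ring

/-- Quadrature for `psi`: the step `h` may be anything up to `2πδ / log T`. -/
theorem psi_quad {k : ℕ} (hk : 1 ≤ k) {δ : ℝ} (hδ : 0 < δ) (hδk : δ < 1 / k) (B : ℕ) :
    ∃ K : ℝ, 0 < K ∧ ∀ T U : ℝ, Adm T U → ∀ h : ℝ, 0 < h → h ≤ 1 →
      h ≤ 2 * Real.pi * δ / Real.log T → ∀ θ : ℝ,
      ‖(h : ℂ) * ∑' n : ℤ, psi k T U (θ + n * h) - ∫ y, psi k T U y‖ ≤ K / T ^ B := by
  have hk0 : (0 : ℝ) < k := by exact_mod_cast hk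
  set η : ℝ := 1 / δ - k with hη
  have hη0 : 0 < η := by
    have : (k : ℝ) < 1 / δ := by
      rw [lt_div_iff₀ hδ]
      rw [lt_div_iff₀ hk0] at hδk
      linarith
    linarith
  obtain ⟨A, hA⟩ := exists_nat_ge (max 1 ((2 * k + 1 + B) / η))
  have hA1' : (1 : ℝ) ≤ A := (le_max_left _ _).trans hA
  have hA1 : 1 ≤ A := by exact_mod_cast hA1'
  have hA2 : 2 * (k : ℝ) + 1 + B ≤ A * η := by
    have := (le_max_right _ _).trans hA
    rwa [div_le_iff₀ hη0] at this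
  obtain ⟨K, hK, hF⟩ := psi_fourier hk A hA1
  obtain ⟨S, hS, hal⟩ := alias_bd
  refine ⟨S * K, by positivity, fun T U hAd h hh hh1 hhL θ => ?_⟩
  have hT0 : 0 < T := by linarith [hAd.1]
  have hL := hAd.log
  have hL0 : 0 < Real.log T := by linarith
  have hπ := Real.pi_gt_three
  obtain ⟨M, δ', hM, hδ', hbd⟩ := Ps_strip hk 1 hAd
  have hb : ∀ y : ℝ, ‖psi k T U y‖ ≤ M * Real.exp (-δ' * y ^ 2) := fun y =>
    hbd (1 / 2) y (by norm_num) (by norm_num)
  have hc1 : 1 ≤ 2 * Real.pi * A / h := by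
    rw [le_div_iff₀ hh]
    nlinarith
  have h1 := hal (psi k T U) M δ' (psi_cont k T U) hM hδ' hb (K * T ^ ((A + 2) * k + 1))
    (2 * Real.pi * A / h) (by positivity) hc1 h hh (fun m => by
      refine (hF T U hAd (m / h)).trans (le_of_eq ?_)
      congr 2
      rw [abs_div, abs_of_pos hh]
      ring) θ
  refine h1.trans ?_
  have h2 : Real.exp (-(2 * Real.pi * A / h)) ≤ Real.exp (-(A / δ * Real.log T)) := by
    apply Real.exp_le_exp.2
    apply neg_le_neg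
    rw [le_div_iff₀ hh]
    calc A / δ * Real.log T * h ≤ A / δ * Real.log T * (2 * Real.pi * δ / Real.log T) := by gcongr
      _ = 2 * Real.pi * A := by field_simp
  have h3 : T ^ ((A + 2) * k + 1) * Real.exp (-(A / δ * Real.log T)) ≤ 1 / T ^ B := by
    have e0 : ∀ n : ℕ, T ^ n = Real.exp ((n : ℝ) * Real.log T) := by
      intro n
      rw [mul_comm, Real.exp_mul, Real.exp_log hT0, Real.rpow_natCast]
    have e1 : T ^ ((A + 2) * k + 1) = Real.exp ((((A + 2) * k + 1 : ℕ) : ℝ) * Real.log T) := e0 _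
    have e2 : 1 / T ^ B = Real.exp (-((B : ℝ) * Real.log T)) := by
      rw [Real.exp_neg, ← e0, one_div]
    rw [e1, e2, ← Real.exp_add]
    apply Real.exp_le_exp.2
    have e3 : A / δ = A * η + A * k := by rw [hη]; ring
    rw [e3]
    push_cast
    nlinarith
  calc S * (K * T ^ ((A + 2) * k + 1)) * Real.exp (-(2 * Real.pi * A / h))
      ≤ S * (K * T ^ ((A + 2) * k + 1)) * Real.exp (-(A / δ * Real.log T)) := by gcongr
    _ = S * K * (T ^ ((A + 2) * k + 1) * Real.exp (-(A / δ * Real.log T))) := by ring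
    _ ≤ S * K * (1 / T ^ B) := by gcongr
    _ = _ := by ring

end

end Q97.QQ
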